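import Pool.Agent.TH290.Kak.DegNe

set_option autoImplicit false

open MeasureTheory Set Finset Topology Filter

namespace Pool.Agent.TH290.Kak

open Pool.Agent.W769.Kak

variable {d : ℕ}

/-- Smooth approximation of a continuous map on a bounded set. -/
theorem exists_smooth_approx {κ : (Fin d → ℝ) → ℝ} {M : ℝ} (hκ : IsKernel κ M)
    {f : (Fin d → ℝ) → Fin d → ℝ} (hf : Continuous f) {B : Set (Fin d → ℝ)}
    (hB : Bornology.IsBounded B) {ρ : ℝ} (hρ : 0 < ρ) :
    ∃ F : (Fin d → ℝ) → Fin d → ℝ, ContDiff ℝ 2 F ∧ ∀ v ∈ B, ‖F v - f v‖ ≤ ρ := by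
  obtain ⟨R, hR⟩ := hB.subset_closedBall 0
  obtain ⟨δ, hδ, h⟩ := osc_small hf 0 R (ε := ρ / (|M| + 1)) (by positivity)
  refine ⟨fun v i => mol κ δ (fun v => f v i) v, ?_, ?_⟩
  · exact contDiff_pi.2 fun i => hκ.contDiff_mol hδ (by fun_prop)
  · intro v hv
    rw [pi_norm_le_iff_of_nonneg hρ.le]
    intro i
    have h1 := hκ.mol_sub_le hδ hf i v
    have h2 := h δ hδ le_rfl v (hR hv)
    have h3 := osc_nonneg f hδ v
    rw [Pi.sub_apply, Real.norm_eq_abs]
    calc |mol κ δ (fun v => f v i) v - f v i| ≤ M * osc f δ v := h1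
      _ ≤ |M| * osc f δ v := by gcongr; exact le_abs_self M
      _ ≤ |M| * (ρ / (|M| + 1)) := by gcongr
      _ ≤ ρ := by
        rw [mul_div_assoc', div_le_iff₀ (by positivity)]
        have := abs_nonneg M
        nlinarith

/-- **Nonzero degree forces the value to be attained** by every continuous map with the same
boundary values. -/
theorem exists_eq_of_deg {Ω : Set (Fin d → ℝ)} (hΩ : IsOpen Ω) (hb : Bornology.IsBounded Ω)
    {κ : (Fin d → ℝ) → ℝ} {M : ℝ} (hκ : IsKernel κ M)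
    {h f : (Fin d → ℝ) → Fin d → ℝ} (hc : Continuous h) (hC : ContDiffOn ℝ 2 h Ω)
    (hf : Continuous f) {y : Fin d → ℝ} {ε : ℝ} (hε : 0 < ε)
    (hy : ∀ v ∈ frontier Ω, ε < ‖h v - y‖) (hdeg : dg Ω κ ε y h ≠ 0)
    (hfh : ∀ v ∈ frontier Ω, f v = h v) : ∃ v ∈ closure Ω, f v = y := by
  by_contra hcon
  push Not at hcon
  apply hdeg
  have hcl : IsCompact (closure Ω) := hb.isCompact_closure
  obtain ⟨δ0, hδ0, hδ1⟩ : ∃ δ0 > 0, ∀ v ∈ closure Ω, δ0 ≤ ‖f v - y‖ := by
    rcases (closure Ω).eq_empty_or_nonempty with he | hne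
    · exact ⟨1, one_pos, fun v hv => by rw [he] at hv; exact absurd hv (notMem_empty v)⟩
    · obtain ⟨v0, hv0, hm⟩ := hcl.exists_isMinOn hne
        (f := fun v => ‖f v - y‖) (by fun_prop)
      refine ⟨‖f v0 - y‖, ?_, fun v hv => hm hv⟩
      rw [gt_iff_lt, norm_pos_iff, sub_ne_zero]
      exact hcon v0 hv0
  set ρ := min (δ0 / 3) (ε / 3) with hρ
  have hρ0 : 0 < ρ := by positivity
  have hρ1 : ρ ≤ δ0 / 3 := min_le_left _ _
  have hρ2 : ρ ≤ ε / 3 := min_le_right _ _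
  obtain ⟨F, hF, hFf⟩ := exists_smooth_approx hκ hf hb.closure hρ0
  have h1 : dg Ω κ ε y h = dg Ω κ ρ y F := by
    apply dg_eq hΩ hb hκ hc hF.continuous hC hF.contDiffOn hε hρ0 hy
    intro v hv
    have h2 := hFf v (frontier_subset_closure hv)
    rw [hfh v hv] at h2
    have h3 := hy v hv
    have h4 : F v - y - (h v - y) = F v - h v := by abel
    rw [h4]
    linarith
  rw [h1, dg_apply]
  apply setIntegral_eq_zero_of_forall_eq_zero
  intro v hv
  rw [hκ.kap_supp hρ0, zero_mul]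
  have h2 := hFf v (subset_closure hv)
  have h3 := hδ1 v (subset_closure hv)
  have h4 : ‖f v - y‖ ≤ ‖F v - y‖ + ‖F v - f v‖ := by
    have := norm_sub_le (F v - y) (F v - f v)
    rwa [show F v - y - (F v - f v) = f v - y by abel] at this
  linarith

end Pool.Agent.TH290.Kak
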