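import Pool.Agent.TH290.Kak.Hom

set_option autoImplicit false

open MeasureTheory Set Finset Topology Filter

namespace Pool.Agent.TH290.Kak

open Pool.Agent.W769.Kak

variable {d : ℕ}

theorem tsupport_kernel {κ : (Fin d → ℝ) → ℝ} {M : ℝ} (h : IsKernel κ M) :
    tsupport κ ⊆ Metric.closedBall 0 1 := by
  apply closure_minimal _ Metric.isClosed_closedBall
  intro z hz
  by_contra h4
  exact hz (h.supp z (by simpa using h4))

/-- local degree at scale `ε` -/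
noncomputable def dg (Ω : Set (Fin d → ℝ)) (κ : (Fin d → ℝ) → ℝ) (ε : ℝ) (y : Fin d → ℝ)
    (h : (Fin d → ℝ) → Fin d → ℝ) : ℝ := J Ω κ (fun v => ε⁻¹ • (h v - y))

theorem dg_eq {Ω : Set (Fin d → ℝ)} (hΩ : IsOpen Ω) (hb : Bornology.IsBounded Ω)
    {κ : (Fin d → ℝ) → ℝ} {M : ℝ} (hκ : IsKernel κ M)
    {h0 h1 : (Fin d → ℝ) → Fin d → ℝ} (hc0 : Continuous h0) (hc1 : Continuous h1)
    (hF0 : ContDiffOn ℝ 2 h0 Ω) (hF1 : ContDiffOn ℝ 2 h1 Ω) {y0 y1 : Fin d → ℝ} {ε0 ε1 : ℝ}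
    (hε0 : 0 < ε0) (hε1 : 0 < ε1)
    (H0 : ∀ v ∈ frontier Ω, ε0 < ‖h0 v - y0‖)
    (H1 : ∀ v ∈ frontier Ω, ε1 + ‖(h1 v - y1) - (h0 v - y0)‖ < ‖h0 v - y0‖) :
    dg Ω κ ε0 y0 h0 = dg Ω κ ε1 y1 h1 := by
  apply J_eq hΩ hb (hκ.smooth.of_le (by norm_num)) (by fun_prop) (by fun_prop)
  · exact (hF0.sub contDiffOn_const).const_smul _
  · exact (hF1.sub contDiffOn_const).const_smul _
  · intro v hv s hs hm
    have hk1 := tsupport_kernel hκ hm
    rw [mem_closedBall_zero_iff] at hk1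
    have a0 := H0 v hv
    have a1 := H1 v hv
    set u0 := h0 v - y0 with hu0
    set u1 := h1 v - y1 with hu1
    have h2 : ε0⁻¹ • u0 + s • (ε1⁻¹ • u1 - ε0⁻¹ • u0) =
        ((1 - s) * ε0⁻¹ + s * ε1⁻¹) • u0 - (s * ε1⁻¹) • (u0 - u1) := by
      module
    rw [h2] at hk1
    have h3 : ((1 - s) * ε0⁻¹ + s * ε1⁻¹) * ‖u0‖ - (s * ε1⁻¹) * ‖u1 - u0‖ ≤ 1 := by
      have h4 := norm_sub_norm_le (((1 - s) * ε0⁻¹ + s * ε1⁻¹) • u0) ((s * ε1⁻¹) • (u0 - u1))
      rw [norm_smul, norm_smul, Real.norm_of_nonneg, Real.norm_of_nonneg, norm_sub_rev u0 u1] at h4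
      · linarith
      · have := hs.1; positivity
      · have := hs.1; have := sub_nonneg.2 hs.2; positivity
    have h5 : 1 < ε0⁻¹ * ‖u0‖ := by
      rw [inv_mul_eq_div, lt_div_iff₀ hε0]; linarith
    have h6 : 1 < ε1⁻¹ * (‖u0‖ - ‖u1 - u0‖) := by
      rw [inv_mul_eq_div, lt_div_iff₀ hε1]; linarith
    have h7 : ((1 - s) * ε0⁻¹ + s * ε1⁻¹) * ‖u0‖ - (s * ε1⁻¹) * ‖u1 - u0‖ =
        (1 - s) * (ε0⁻¹ * ‖u0‖) + s * (ε1⁻¹ * (‖u0‖ - ‖u1 - u0‖)) := by ring
    rw [h7] at h3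
    have h8 := hs.1
    have h9 := hs.2
    rcases eq_or_lt_of_le h9 with h10 | h10
    · subst h10
      simp only [sub_self, zero_mul, one_mul, zero_add] at h3
      linarith
    · have h11 : 0 < (1 - s) * (ε0⁻¹ * ‖u0‖ - 1) := mul_pos (by linarith) (by linarith)
      have h12 : 0 ≤ s * (ε1⁻¹ * (‖u0‖ - ‖u1 - u0‖) - 1) := mul_nonneg h8 (by linarith)
      nlinarith

theorem det_smul' (c : ℝ) (A : (Fin d → ℝ) →L[ℝ] (Fin d → ℝ)) : (c • A).det = c ^ d * A.det := by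
  have h : ((c • A : (Fin d → ℝ) →L[ℝ] (Fin d → ℝ)) : (Fin d → ℝ) →ₗ[ℝ] (Fin d → ℝ)) =
      c • (A : (Fin d → ℝ) →ₗ[ℝ] (Fin d → ℝ)) := rfl
  rw [ContinuousLinearMap.det, h, LinearMap.det_smul]
  simp [ContinuousLinearMap.det]

theorem dg_apply (Ω : Set (Fin d → ℝ)) (κ : (Fin d → ℝ) → ℝ) (ε : ℝ) (y : Fin d → ℝ)
    (h : (Fin d → ℝ) → Fin d → ℝ) :
    dg Ω κ ε y h = ∫ v in Ω, kap κ ε (h v - y) * (fderiv ℝ h v).det := by
  unfold dg J
  congr 1
  funext v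
  have h1 : fderiv ℝ (fun v => ε⁻¹ • (h v - y)) v = ε⁻¹ • fderiv ℝ h v := by
    have h2 : (fun v => ε⁻¹ • (h v - y)) = ε⁻¹ • (fun v => h v - y) := rfl
    rw [h2, fderiv_const_smul_field]
    rw [Pi.smul_apply, fderiv_sub_const]
  rw [h1, det_smul', kap, inv_pow]
  ring

theorem det_zero_ae_on {Ω : Set (Fin d → ℝ)} (hΩ : IsOpen Ω) {f : (Fin d → ℝ) → Fin d → ℝ}
    (hc : Continuous f) (hf : ContDiffOn ℝ 2 f Ω) {N : Set (Fin d → ℝ)}
    (hN : IsClosed N) (hN0 : volume N = 0) :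
    ∀ᵐ v ∂(volume.restrict Ω), f v ∈ N → (fderiv ℝ f v).det = 0 := by
  rw [ae_restrict_iff' hΩ.measurableSet]
  have hdc : ContinuousOn (fun v => (fderiv ℝ f v).det) Ω :=
    ContinuousLinearMap.continuous_det.comp_continuousOn
      (hf.continuousOn_fderiv_of_isOpen hΩ (by norm_num))
  have hopen : IsOpen {v | v ∈ Ω ∧ (fderiv ℝ f v).det ≠ 0} :=
    hdc.isOpen_inter_preimage hΩ isOpen_ne
  have hmeas : MeasurableSet {v | f v ∈ N ∧ v ∈ Ω ∧ (fderiv ℝ f v).det ≠ 0} := by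
    apply MeasurableSet.inter
    · exact (hN.preimage hc).measurableSet
    · exact hopen.measurableSet
  have hS : volume {v | f v ∈ N ∧ v ∈ Ω ∧ (fderiv ℝ f v).det ≠ 0} = 0 := by
    apply measure_null_of_locally_null
    intro x hx
    have hs : HasStrictFDerivAt f (fderiv ℝ f x) x :=
      (hf.contDiffAt (hΩ.mem_nhds hx.2.1)).hasStrictFDerivAt (by norm_num)
    rw [← ContinuousLinearMap.coe_toContinuousLinearEquivOfDetNeZero _ hx.2.2] at hs
    set e := hs.toOpenPartialHomeomorph f with he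
    refine ⟨e.source ∩ {v | f v ∈ N ∧ v ∈ Ω ∧ (fderiv ℝ f v).det ≠ 0}, ?_, ?_⟩
    · apply Filter.inter_mem
      · exact mem_nhdsWithin_of_mem_nhds (e.open_source.mem_nhds
          hs.mem_toOpenPartialHomeomorph_source)
      · exact self_mem_nhdsWithin
    · set u := e.source ∩ {v | f v ∈ N ∧ v ∈ Ω ∧ (fderiv ℝ f v).det ≠ 0} with hu
      have hum : MeasurableSet u := e.open_source.measurableSet.inter hmeas
      have hinj : InjOn f u := fun a ha b hb hab => e.injOn ha.1 hb.1 hab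
      have h1 := lintegral_abs_det_fderiv_eq_addHaar_image volume hum
        (f := f) (f' := fun v => fderiv ℝ f v)
        (fun v hv => ((hf.differentiableOn (by norm_num)).differentiableAt
          (hΩ.mem_nhds hv.2.2.1)).hasFDerivAt.hasFDerivWithinAt) hinj
      have h2 : volume (f '' u) = 0 := by
        apply measure_mono_null _ hN0
        rintro _ ⟨v, hv, rfl⟩
        exact hv.2.1
      have hdcu : ContinuousOn (fun v => (fderiv ℝ f v).det) u :=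
        hdc.mono fun v hv => hv.2.2.1
      rw [h2, lintegral_eq_zero_iff' (by
        exact (ENNReal.measurable_ofReal.comp_aemeasurable
          ((hdcu.abs).aemeasurable hum)))] at h1
      rw [Filter.EventuallyEq, ae_restrict_iff' hum] at h1
      rw [measure_eq_zero_iff_ae_notMem]
      filter_upwards [h1] with v hv hvu
      have h3 := hv hvu
      simp only [Pi.zero_apply, ENNReal.ofReal_eq_zero] at h3
      exact hvu.2.2.2 (by simpa using h3)
  rw [measure_eq_zero_iff_ae_notMem] at hS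
  filter_upwards [hS] with v hv hvΩ hvN
  by_contra h
  exact hv ⟨hvN, hvΩ, h⟩

end Pool.Agent.TH290.Kak
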