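import Pool.Agent.TH290.Kak.Deg

set_option autoImplicit false

open MeasureTheory Set Finset Topology Filter

namespace Pool.Agent.TH290.Kak

open Pool.Agent.W769.Kak

variable {d : ℕ}

theorem abs_int_kap_le {κ : (Fin d → ℝ) → ℝ} {M : ℝ} (hκ : IsKernel κ M) {ε : ℝ} (hε : 0 < ε)
    {A : Set (Fin d → ℝ)} (hA : MeasurableSet A) (w : Fin d → ℝ) :
    |∫ y in A, kap κ ε (w - y)| ≤ 2 ^ d * M := by
  have h1 : ∫ y in A, kap κ ε (w - y) = ∫ y in A ∩ Metric.closedBall w ε, kap κ ε (w - y) := by
    apply setIntegral_eq_of_subset_of_forall_sdiff_eq_zero hA inter_subset_left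
    intro y hy
    apply hκ.kap_supp hε
    by_contra h2
    apply hy.2
    refine ⟨hy.1, ?_⟩
    rw [Metric.mem_closedBall, dist_comm, dist_eq_norm]
    linarith
  have hvB : volume (Metric.closedBall w ε) = ENNReal.ofReal ((2 * ε) ^ d) := by
    rw [Real.volume_pi_closedBall _ hε.le, Fintype.card_fin]
  have h2 : volume (A ∩ Metric.closedBall w ε) < ⊤ :=
    (measure_mono inter_subset_right).trans_lt (by rw [hvB]; exact ENNReal.ofReal_lt_top)
  have h3 := norm_setIntegral_le_of_norm_le_const (f := fun y => kap κ ε (w - y)) h2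
    (C := (ε ^ d)⁻¹ * M) (fun y _ => hκ.abs_kap_le hε _)
  rw [h1]
  rw [Real.norm_eq_abs] at h3
  refine h3.trans ?_
  have hM : 0 ≤ (ε ^ d)⁻¹ * M := (abs_nonneg _).trans (hκ.abs_kap_le hε 0)
  have h4 : volume.real (A ∩ Metric.closedBall w ε) ≤ (2 * ε) ^ d := by
    rw [Measure.real]
    refine ENNReal.toReal_le_of_le_ofReal (by positivity) ?_
    rw [← hvB]
    exact measure_mono inter_subset_right
  calc (ε ^ d)⁻¹ * M * volume.real (A ∩ Metric.closedBall w ε) ≤ (ε ^ d)⁻¹ * M * (2 * ε) ^ d := by
        gcongr
    _ = 2 ^ d * M := by rw [mul_pow]; field_simp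

/-- If the total Jacobian is nonzero and the image of the boundary is null, then some local degree
off the image of the boundary is nonzero. -/
theorem exists_deg_ne {Ω : Set (Fin d → ℝ)} (hΩ : IsOpen Ω) (hb : Bornology.IsBounded Ω)
    {κ : (Fin d → ℝ) → ℝ} {M : ℝ} (hκ : IsKernel κ M)
    {h : (Fin d → ℝ) → Fin d → ℝ} (hc : Continuous h) (hC : ContDiffOn ℝ 2 h Ω)
    (hint : IntegrableOn (fun v => (fderiv ℝ h v).det) Ω)
    (hne : ∫ v in Ω, (fderiv ℝ h v).det ≠ 0) (hnull : volume (h '' frontier Ω) = 0) :
    ∃ y ε, 0 < ε ∧ (∀ v ∈ frontier Ω, ε < ‖h v - y‖) ∧ dg Ω κ ε y h ≠ 0 := by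
  by_contra hcon
  push Not at hcon
  apply hne
  set N := h '' frontier Ω with hN
  have hfc : IsCompact (frontier Ω) :=
    Metric.isCompact_of_isClosed_isBounded isClosed_frontier
      (hb.closure.subset frontier_subset_closure)
  have hNc : IsCompact N := hfc.image hc
  obtain ⟨R0, hR0⟩ := (hb.isCompact_closure.image hc).isBounded.subset_closedBall 0
  have hR0' : ∀ v ∈ Ω, ‖h v‖ ≤ R0 := by
    intro v hv
    have := hR0 (mem_image_of_mem h (subset_closure hv))
    rwa [mem_closedBall_zero_iff] at this
  set D : (Fin d → ℝ) → ℝ := fun v => (fderiv ℝ h v).det with hD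
  -- Fubini
  have hFub : ∀ (A : Set (Fin d → ℝ)) (ε : ℝ), 0 < ε → Integrable
      (fun p : (Fin d → ℝ) × (Fin d → ℝ) => kap κ ε (h p.2 - p.1) * D p.2)
      ((volume.restrict A).prod (volume.restrict Ω)) := by
    intro A ε hε
    set B := Metric.closedBall (0 : Fin d → ℝ) (R0 + ε) with hB
    have hI1 : Integrable (B.indicator fun _ => (ε ^ d)⁻¹ * M) (volume.restrict A) := by
      apply Integrable.restrict
      rw [integrable_indicator_iff Metric.isClosed_closedBall.measurableSet]
      exact integrableOn_const (isCompact_closedBall _ _).measure_lt_top.ne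
    have hI2 : Integrable (fun v => |D v|) (volume.restrict Ω) := hint.abs
    refine (hI1.mul_prod hI2).mono' ?_ ?_
    · apply AEStronglyMeasurable.mul
      · apply Continuous.aestronglyMeasurable
        exact (hκ.contDiff_kap ε).continuous.comp (by fun_prop)
      · exact hint.aestronglyMeasurable.comp_snd
    · have hae : ∀ᵐ p ∂((volume.restrict A).prod (volume.restrict Ω)), p.2 ∈ Ω :=
        Measure.quasiMeasurePreserving_snd.ae (ae_restrict_mem hΩ.measurableSet)
      filter_upwards [hae] with p hp
      rw [norm_mul, Real.norm_eq_abs, Real.norm_eq_abs]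
      gcongr
      by_cases hpB : p.1 ∈ B
      · rw [indicator_of_mem hpB]
        exact hκ.abs_kap_le hε _
      · rw [hκ.kap_supp hε]
        · rw [indicator_of_notMem hpB]; simp
        · rw [hB, mem_closedBall_zero_iff, not_le] at hpB
          have h1 := hR0' _ hp
          have h2 := norm_sub_norm_le p.1 (h p.2)
          rw [norm_sub_rev] at h2
          linarith
  -- the smooth cutoffs
  set A : ℕ → Set (Fin d → ℝ) := fun m => (Metric.thickening (1 / ((m : ℝ) + 1)) N)ᶜ with hA
  set e : ℕ → ℝ := fun m => 1 / ((m : ℝ) + 1) / 2 with he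
  have he0 : ∀ m, 0 < e m := fun m => by rw [he]; positivity
  have hAm : ∀ m, MeasurableSet (A m) := fun m =>
    Metric.isOpen_thickening.measurableSet.compl
  have hz : ∀ m, ∫ v in Ω, (∫ y in A m, kap κ (e m) (h v - y)) * D v = 0 := by
    intro m
    have h1 : ∫ y in A m, dg Ω κ (e m) y h = 0 := by
      rw [setIntegral_congr_fun (hAm m) (g := fun _ => 0)]
      · simp
      · intro y hy
        simp only
        apply hcon y (e m) (he0 m)
        intro v hv
        have h2 : y ∉ Metric.thickening (1 / ((m : ℝ) + 1)) N := hy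
        rw [Metric.mem_thickening_iff] at h2
        push Not at h2
        have h3 := h2 (h v) (mem_image_of_mem h hv)
        rw [dist_comm, dist_eq_norm] at h3
        have h4 : 0 < 1 / ((m : ℝ) + 1) := by positivity
        simp only [he]
        linarith
    simp_rw [dg_apply] at h1
    rw [integral_integral_swap (hFub (A m) (e m) (he0 m))] at h1
    rw [← h1]
    congr 1
    funext v
    rw [integral_mul_const]
  have hlim : Tendsto (fun m => ∫ v in Ω, (∫ y in A m, kap κ (e m) (h v - y)) * D v) atTop
      (𝓝 (∫ v in Ω, D v)) := by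
    apply tendsto_integral_of_dominated_convergence (fun v => (2 ^ d * M) * |D v|)
    · intro m
      have h1 := (hFub (A m) (e m) (he0 m)).integral_prod_right
      refine h1.aestronglyMeasurable.congr (Eventually.of_forall fun v => ?_)
      simp only
      rw [integral_mul_const]
    · exact hint.abs.const_mul _
    · intro m
      refine Eventually.of_forall fun v => ?_
      rw [norm_mul, Real.norm_eq_abs, Real.norm_eq_abs]
      gcongr
      exact abs_int_kap_le hκ (he0 m) (hAm m) _
    · filter_upwards [det_zero_ae_on hΩ hc hC hNc.isClosed hnull] with v hv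
      by_cases hvN : h v ∈ N
      · have h1 : D v = 0 := hv hvN
        simp [h1]
      · have h5 : ∃ δ > 0, h v ∉ Metric.thickening δ N := by
          have h6 : h v ∉ closure N := by rwa [hNc.isClosed.closure_eq]
          rw [Metric.closure_eq_iInter_thickening] at h6
          simp only [mem_iInter, not_forall] at h6
          obtain ⟨δ, hδ, h7⟩ := h6
          exact ⟨δ, hδ, h7⟩
        obtain ⟨δ, hδ, h7⟩ := h5
        have h8 : ∀ᶠ m : ℕ in atTop, 1 / ((m : ℝ) + 1) ≤ δ / 2 := by
          have := tendsto_one_div_add_atTop_nhds_zero_nat (𝕜 := ℝ)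
          exact ((tendsto_order.1 this).2 (δ / 2) (by positivity)).mono fun _ h => le_of_lt h
        apply tendsto_const_nhds.congr'
        filter_upwards [h8] with m hm
        have h9 : ∫ y in A m, kap κ (e m) (h v - y) = 1 := by
          rw [setIntegral_eq_integral_of_forall_compl_eq_zero]
          · rw [integral_sub_left_eq_self (fun y => kap κ (e m) y)]
            exact hκ.integral_kap (he0 m)
          · intro y hy
            apply hκ.kap_supp (he0 m)
            rw [hA, notMem_compl_iff, Metric.mem_thickening_iff] at hy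
            obtain ⟨z, hz, hyz⟩ := hy
            by_contra h10
            apply h7
            rw [Metric.mem_thickening_iff]
            refine ⟨z, hz, ?_⟩
            have h11 : dist (h v) y ≤ e m := by
              rw [dist_eq_norm]; linarith
            have h12 : e m ≤ δ / 4 := by
              simp only [he]; linarith
            calc dist (h v) z ≤ dist (h v) y + dist y z := dist_triangle _ _ _
              _ < δ := by linarith
        rw [h9, one_mul]
  simp_rw [hz] at hlim
  exact tendsto_nhds_unique hlim tendsto_const_nhds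

end Pool.Agent.TH290.Kak
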