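import Pool.Agent.TH290.Kak.Sel
import Pool.Agent.W769.Kak.Wrap

set_option autoImplicit false

open MeasureTheory Set Finset Topology Filter

namespace Pool.Agent.TH290.Kak

open Pool.Agent.W769.Kak

variable {d : ℕ}

/-- slice maps -/
def hm (g : (Fin d → ℝ) → Fin d → ℝ) (t : ℝ) : (Fin d → ℝ) → Fin d → ℝ := fun v => g v + t • v

theorem fderiv_hm {g : (Fin d → ℝ) → Fin d → ℝ} (t : ℝ) {v : Fin d → ℝ}
    (hg : DifferentiableAt ℝ g v) :
    (fderiv ℝ (hm g t) v).det = (LinearMap.toMatrix' (fderiv ℝ g v : (Fin d → ℝ) →ₗ[ℝ] (Fin d → ℝ)) +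
      t • (1 : Matrix (Fin d) (Fin d) ℝ)).det := by
  have h1 : fderiv ℝ (hm g t) v = fderiv ℝ g v + t • ContinuousLinearMap.id ℝ _ :=
    (hg.hasFDerivAt.add ((hasFDerivAt_id v).const_smul t)).fderiv
  rw [h1, ContinuousLinearMap.det, ← LinearMap.det_toMatrix']
  congr 1
  have h2 : ((fderiv ℝ g v + t • ContinuousLinearMap.id ℝ (Fin d → ℝ) :
      (Fin d → ℝ) →L[ℝ] (Fin d → ℝ)) : (Fin d → ℝ) →ₗ[ℝ] (Fin d → ℝ)) =
      (fderiv ℝ g v : (Fin d → ℝ) →ₗ[ℝ] (Fin d → ℝ)) + t • LinearMap.id := rfl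
  rw [h2, map_add, map_smul, LinearMap.toMatrix'_id]

/-- the height `t` is good: near it, a whole ball is covered by the slices -/
def Good (Γ : Set ((Fin d → ℝ) × (Fin d → ℝ))) (t : ℝ) : Prop :=
  ∃ y0 : Fin d → ℝ, ∃ r > 0, ∀ t', |t' - t| < r → ∀ y', dist y' y0 < r →
    ∃ v b, (v, b) ∈ Γ ∧ b + t' • v = y'

theorem good_of_deg {Ω : Set (Fin d → ℝ)} (hΩ : IsOpen Ω) (hb : Bornology.IsBounded Ω)
    {κ : (Fin d → ℝ) → ℝ} {M : ℝ} (hκ : IsKernel κ M)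
    {Γ : Set ((Fin d → ℝ) × (Fin d → ℝ))} (hΓ : IsCompact Γ)
    (hne : ∀ v ∈ closure Ω, ∃ b, (v, b) ∈ Γ)
    (hconv : ∀ v ∈ closure Ω, Convex ℝ {b | (v, b) ∈ Γ})
    {g : (Fin d → ℝ) → Fin d → ℝ} (hg : Continuous g) (hg2 : ContDiffOn ℝ 2 g Ω)
    (hgΓ : ∀ v ∈ frontier Ω, (v, g v) ∈ Γ)
    {t ε0 : ℝ} {y0 : Fin d → ℝ} (hε0 : 0 < ε0) (hy0 : ∀ v ∈ frontier Ω, ε0 < ‖hm g t v - y0‖)
    (hdeg : dg Ω κ ε0 y0 (hm g t) ≠ 0) : Good Γ t := by
  obtain ⟨R, hR⟩ := hb.closure.exists_norm_le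
  have hR' : 0 < |R| + 1 := by positivity
  have hhc : ∀ t, Continuous (hm g t) := fun t => by unfold hm; fun_prop
  have hh2 : ∀ t, ContDiffOn ℝ 2 (hm g t) Ω := fun t => by
    unfold hm; exact hg2.add (contDiff_id.const_smul t).contDiffOn
  set r := ε0 / 4 / (|R| + 2) with hr
  have hr0 : 0 < r := by positivity
  have hrR : r * (|R| + 1) + r = ε0 / 4 := by
    rw [hr]; field_simp; ring
  refine ⟨y0, r, hr0, ?_⟩
  intro t' ht' y' hy'
  have hdiff : ∀ v ∈ frontier Ω, ‖(hm g t' v - y') - (hm g t v - y0)‖ ≤ ε0 / 4 := by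
    intro v hv
    have h1 : (hm g t' v - y') - (hm g t v - y0) = (t' - t) • v - (y' - y0) := by
      unfold hm; module
    rw [h1]
    have h2 := hR v (frontier_subset_closure hv)
    calc ‖(t' - t) • v - (y' - y0)‖ ≤ ‖(t' - t) • v‖ + ‖y' - y0‖ := norm_sub_le _ _
      _ = |t' - t| * ‖v‖ + dist y' y0 := by rw [norm_smul, Real.norm_eq_abs, dist_eq_norm]
      _ ≤ r * (|R| + 1) + r := by
          gcongr
          exact h2.trans ((le_abs_self R).trans (by linarith))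
      _ = ε0 / 4 := hrR
  have h1 : dg Ω κ ε0 y0 (hm g t) = dg Ω κ (ε0 / 2) y' (hm g t') := by
    apply dg_eq hΩ hb hκ (hhc t) (hhc t') (hh2 t) (hh2 t') hε0 (by positivity) hy0
    intro v hv
    have := hdiff v hv
    have := hy0 v hv
    linarith
  rw [h1] at hdeg
  have hy1 : ∀ v ∈ frontier Ω, ε0 / 2 < ‖hm g t' v - y'‖ := by
    intro v hv
    have h2 := hdiff v hv
    have h3 := hy0 v hv
    have h4 := norm_sub_norm_le (hm g t v - y0) (hm g t' v - y')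
    rw [norm_sub_rev (hm g t v - y0) (hm g t' v - y')] at h4
    linarith
  -- approximate solutions
  have happ : ∀ m : ℕ, ∃ v b, (v, b) ∈ Γ ∧ ‖b + t' • v - y'‖ ≤ (1 + |t'|) * (1 / ((m : ℝ) + 1)) := by
    intro m
    obtain ⟨a, ha, hafr, hacl⟩ := exists_approx_sel hΩ hb hΓ hne hconv hg hgΓ
      (ε := 1 / ((m : ℝ) + 1)) (by positivity)
    obtain ⟨v, hv, hvy⟩ := exists_eq_of_deg hΩ hb hκ (hhc t') (hh2 t')
      (f := fun v => a v + t' • v) (by fun_prop) (y := y') (ε := ε0 / 2) (by positivity) hy1 hdeg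
      (fun v hv => by simp only [hm, hafr v hv])
    obtain ⟨w, b, hwb, h2, h3⟩ := hacl v hv
    refine ⟨w, b, hwb, ?_⟩
    have h4 : b + t' • w - y' = (b - a v) + t' • (w - v) := by
      rw [← hvy]; module
    rw [h4]
    calc ‖(b - a v) + t' • (w - v)‖ ≤ ‖b - a v‖ + ‖t' • (w - v)‖ := norm_add_le _ _
      _ = dist b (a v) + |t'| * dist w v := by
          rw [norm_smul, Real.norm_eq_abs, dist_eq_norm, dist_eq_norm]
      _ ≤ 1 / ((m : ℝ) + 1) + |t'| * (1 / ((m : ℝ) + 1)) := by gcongr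
      _ = (1 + |t'|) * (1 / ((m : ℝ) + 1)) := by ring
  have hΓne : Γ.Nonempty := by
    obtain ⟨v, b, h, _⟩ := happ 0
    exact ⟨_, h⟩
  obtain ⟨⟨v, b⟩, hvb, hmin⟩ := hΓ.exists_isMinOn hΓne
    (f := fun p => ‖p.2 + t' • p.1 - y'‖) (by fun_prop)
  refine ⟨v, b, hvb, ?_⟩
  have h5 : ‖b + t' • v - y'‖ ≤ 0 := by
    have h6 : Tendsto (fun m : ℕ => (1 + |t'|) * (1 / ((m : ℝ) + 1))) atTop (𝓝 ((1 + |t'|) * 0)) :=
      tendsto_one_div_add_atTop_nhds_zero_nat.const_mul _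
    rw [mul_zero] at h6
    refine ge_of_tendsto' h6 fun m => ?_
    obtain ⟨w, c, hwc, h7⟩ := happ m
    exact (hmin hwc).trans h7
  exact sub_eq_zero.1 (norm_le_zero_iff.1 h5)

/-- **At most `d` bad heights.** -/
theorem bad_le {Ω : Set (Fin d → ℝ)} (hΩ : IsOpen Ω) (hb : Bornology.IsBounded Ω)
    (hΩne : Ω.Nonempty)
    {Γ : Set ((Fin d → ℝ) × (Fin d → ℝ))} (hΓ : IsCompact Γ)
    (hne : ∀ v ∈ closure Ω, ∃ b, (v, b) ∈ Γ)
    (hconv : ∀ v ∈ closure Ω, Convex ℝ {b | (v, b) ∈ Γ})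
    {g : (Fin d → ℝ) → Fin d → ℝ} (hg : Continuous g) (hg2 : ContDiffOn ℝ 2 g Ω)
    (hgΓ : ∀ v ∈ frontier Ω, (v, g v) ∈ Γ)
    (hint : ∀ t, IntegrableOn (fun v => (fderiv ℝ (hm g t) v).det) Ω)
    (hnull : ∀ t, volume (hm g t '' frontier Ω) = 0) :
    {t : ℝ | ¬ Good Γ t}.encard ≤ d := by
  obtain ⟨κ, M, hκ⟩ := exists_kernel d
  have hhc : ∀ t, Continuous (hm g t) := fun t => by unfold hm; fun_prop
  have hh2 : ∀ t, ContDiffOn ℝ 2 (hm g t) Ω := fun t => by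
    unfold hm; exact hg2.add (contDiff_id.const_smul t).contDiffOn
  apply encard_bad_le
  intro t ht
  by_contra hcon
  push Not at hcon
  have h0 : ∀ i, ∫ v in Ω, (fderiv ℝ (hm g (t i)) v).det = 0 := by
    intro i
    by_contra hP
    obtain ⟨y0, ε0, hε0, hy0, hdeg⟩ := exists_deg_ne hΩ hb hκ (hhc (t i)) (hh2 (t i))
      (hint (t i)) hP (hnull (t i))
    exact hcon i (good_of_deg hΩ hb hκ hΓ hne hconv hg hg2 hgΓ hε0 hy0 hdeg)
  have h1 : ∑ i, (∫ v in Ω, (fderiv ℝ (hm g (t i)) v).det) / ∏ j ∈ univ.erase i, (t i - t j) =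
      volume.real Ω := by
    simp_rw [← integral_div]
    rw [← integral_finsetSum _ fun i _ => (hint (t i)).div_const _]
    rw [setIntegral_congr_fun hΩ.measurableSet (g := fun _ => (1 : ℝ))]
    · simp
    · intro v hv
      simp only
      have hdv : DifferentiableAt ℝ g v :=
        (hg2.differentiableOn (by norm_num)).differentiableAt (hΩ.mem_nhds hv)
      simp_rw [fderiv_hm _ hdv]
      exact det_weights _ t ht
  simp only [h0, zero_div, Finset.sum_const_zero] at h1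
  have h2 : 0 < volume.real Ω := by
    rw [Measure.real, ENNReal.toReal_pos_iff]
    exact ⟨hΩ.measure_pos _ hΩne, hb.measure_lt_top⟩
  linarith

end Pool.Agent.TH290.Kak
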