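import Pool.Agent.TH290.Kak.McShane
import Pool.Agent.TH290.Kak.Main1

set_option autoImplicit false

open MeasureTheory Set Finset Topology Filter

namespace Pool.Agent.TH290.Kak

open Pool.Agent.W769.Kak

variable {d : ℕ}

theorem osc_le {a : (Fin d → ℝ) → Fin d → ℝ} (ha : Continuous a) {ρ K : ℝ} (hρ : 0 < ρ)
    {v : Fin d → ℝ} (h : ∀ y, ‖y‖ ≤ ρ → ‖a (v - y) - a v‖ ≤ K) : osc a ρ v ≤ 2 ^ d * K := by
  have hdn : Continuous (fun y => ‖a (v - y) - a v‖) := by fun_prop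
  unfold osc
  have h1 : ∫ y in Metric.closedBall (0 : Fin d → ℝ) ρ, ‖a (v - y) - a v‖ ≤
      ∫ y in Metric.closedBall (0 : Fin d → ℝ) ρ, K := by
    apply setIntegral_mono_on
    · exact hdn.continuousOn.integrableOn_compact (isCompact_closedBall _ _)
    · exact continuous_const.continuousOn.integrableOn_compact (isCompact_closedBall _ _)
    · exact Metric.isClosed_closedBall.measurableSet
    · intro y hy
      rw [Metric.mem_closedBall, dist_zero_right] at hy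
      exact h y hy
  have hvr : volume.real (Metric.closedBall (0 : Fin d → ℝ) ρ) = (2 * ρ) ^ d := by
    rw [Measure.real, Real.volume_pi_closedBall _ hρ.le, Fintype.card_fin,
      ENNReal.toReal_ofReal (by positivity)]
  rw [setIntegral_const, hvr, smul_eq_mul] at h1
  calc (ρ ^ d)⁻¹ * ∫ y in Metric.closedBall (0 : Fin d → ℝ) ρ, ‖a (v - y) - a v‖
      ≤ (ρ ^ d)⁻¹ * ((2 * ρ) ^ d * K) := by gcongr
    _ = 2 ^ d * K := by rw [mul_pow]; field_simp

theorem osc_hoelder {F : (Fin d → ℝ) → Fin d → ℝ} {α C : ℝ} (hα0 : 0 < α) (hC : 0 ≤ C)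
    (hF : ∀ v w, ‖F v - F w‖ ≤ C * ‖v - w‖ ^ α) {ρ : ℝ} (hρ : 0 < ρ) (v : Fin d → ℝ) :
    osc F ρ v ≤ 2 ^ d * (C * ρ ^ α) := by
  apply osc_le (continuous_of_hoelder hα0 hF) hρ
  intro y hy
  calc ‖F (v - y) - F v‖ ≤ C * ‖v - y - v‖ ^ α := hF _ _
    _ ≤ C * ρ ^ α := by
      rw [sub_sub_cancel_left, norm_neg]
      gcongr

/-- the scales -/
noncomputable def rs (j : ℕ) : ℝ := (1 / 2 : ℝ) ^ j

theorem rs_pos (j : ℕ) : 0 < rs j := by unfold rs; positivity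

theorem rs_succ (j : ℕ) : rs (j + 1) = rs j / 2 := by unfold rs; rw [pow_succ]; ring

theorem rs_anti {i j : ℕ} (h : i ≤ j) : rs j ≤ rs i := by
  unfold rs
  exact pow_le_pow_of_le_one (by norm_num) (by norm_num) h

theorem rs_le_one (j : ℕ) : rs j ≤ 1 := by
  have := rs_anti (Nat.zero_le j)
  simpa [rs] using this

theorem exists_rs_lt {x : ℝ} (hx : 0 < x) : ∃ j, rs j < x :=
  exists_pow_lt_of_lt_one hx (by norm_num)

theorem rs_rpow (j : ℕ) (s : ℝ) : rs j ^ s = ((1 / 2 : ℝ) ^ s) ^ j := by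
  unfold rs
  rw [← Real.rpow_natCast, ← Real.rpow_natCast, ← Real.rpow_mul (by norm_num),
    ← Real.rpow_mul (by norm_num), mul_comm]

theorem summable_rs {s : ℝ} (hs : 0 < s) : Summable (fun j => rs j ^ s) := by
  simp_rw [rs_rpow]
  apply summable_geometric_of_lt_one (by positivity)
  exact Real.rpow_lt_one (by norm_num) (by norm_num) hs

/-- the Lipschitz cutoff -/
noncomputable def uc (B : Set (Fin d → ℝ)) (ρ : ℝ) (v : Fin d → ℝ) : ℝ :=
  max 0 (min 1 (2 - Metric.infDist v B / ρ))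

theorem continuous_uc (B : Set (Fin d → ℝ)) (ρ : ℝ) : Continuous (uc B ρ) := by
  unfold uc
  have := Metric.continuous_infDist_pt B
  fun_prop

theorem uc_mem (B : Set (Fin d → ℝ)) (ρ : ℝ) (v : Fin d → ℝ) : uc B ρ v ∈ Icc (0 : ℝ) 1 := by
  unfold uc
  exact ⟨le_max_left _ _, max_le zero_le_one (min_le_left _ _)⟩

theorem uc_one {B : Set (Fin d → ℝ)} {ρ : ℝ} (hρ : 0 < ρ) {v : Fin d → ℝ}
    (hv : Metric.infDist v B ≤ ρ) : uc B ρ v = 1 := by
  unfold uc
  have h1 : Metric.infDist v B / ρ ≤ 1 := by rw [div_le_one hρ]; exact hv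
  rw [min_eq_left (by linarith), max_eq_right zero_le_one]

theorem uc_zero {B : Set (Fin d → ℝ)} {ρ : ℝ} (hρ : 0 < ρ) {v : Fin d → ℝ}
    (hv : 2 * ρ ≤ Metric.infDist v B) : uc B ρ v = 0 := by
  unfold uc
  have h1 : 2 ≤ Metric.infDist v B / ρ := by rw [le_div_iff₀ hρ]; exact hv
  rw [max_eq_left ((min_le_right _ _).trans (by linarith))]

/-- the smooth cutoff -/
noncomputable def th (κ : (Fin d → ℝ) → ℝ) (B : Set (Fin d → ℝ)) (j : ℕ) : (Fin d → ℝ) → ℝ :=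
  mol κ (rs j) (uc B (rs j))

section

variable {κ : (Fin d → ℝ) → ℝ} {M : ℝ} (hκ : IsKernel κ M)
include hκ

theorem M_nonneg : 0 ≤ M := (abs_nonneg _).trans (hκ.bound 0)

theorem contDiff_th (B : Set (Fin d → ℝ)) (j : ℕ) : ContDiff ℝ 2 (th κ B j) :=
  hκ.contDiff_mol (rs_pos j) (continuous_uc _ _)

theorem th_one {B : Set (Fin d → ℝ)} (j : ℕ) {v : Fin d → ℝ} (hv : v ∈ B) : th κ B j v = 1 := by
  rw [th, mol_apply, ← hκ.integral_kap (rs_pos j)]
  congr 1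
  funext y
  by_cases hy : rs j < ‖y‖
  · rw [hκ.kap_supp (rs_pos j) hy, zero_mul]
  · rw [uc_one (rs_pos j), mul_one]
    refine (Metric.infDist_le_dist_of_mem hv).trans ?_
    rw [dist_eq_norm, sub_sub_cancel_left, norm_neg]
    exact not_lt.1 hy

theorem th_zero {B : Set (Fin d → ℝ)} (j : ℕ) {v : Fin d → ℝ}
    (hv : 3 * rs j ≤ Metric.infDist v B) : th κ B j v = 0 := by
  rw [th, mol_apply]
  have : ∀ y, kap κ (rs j) y * uc B (rs j) (v - y) = 0 := by
    intro y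
    by_cases hy : rs j < ‖y‖
    · rw [hκ.kap_supp (rs_pos j) hy, zero_mul]
    · rw [uc_zero (rs_pos j), mul_zero]
      have h1 := Metric.infDist_le_infDist_add_dist (s := B) (x := v) (y := v - y)
      rw [dist_eq_norm, sub_sub_cancel] at h1
      linarith
  simp [this]

theorem osc_uc (B : Set (Fin d → ℝ)) (j : ℕ) (v : Fin d → ℝ) :
    osc (fun v (_ : Fin d) => uc B (rs j) v) (rs j) v ≤ 2 ^ d := by
  have h := osc_le (a := fun v (_ : Fin d) => uc B (rs j) v) (K := 1) (v := v)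
    (continuous_pi fun _ => continuous_uc _ _) (rs_pos j) (by
      intro y _
      rw [pi_norm_le_iff_of_nonneg zero_le_one]
      intro i
      have h1 := uc_mem B (rs j) (v - y)
      have h2 := uc_mem B (rs j) v
      simp only [Pi.sub_apply, Real.norm_eq_abs]
      rw [abs_le]
      constructor <;> linarith [h1.1, h1.2, h2.1, h2.2])
  simpa using h

theorem abs_th_le [Nonempty (Fin d)] (B : Set (Fin d → ℝ)) (j : ℕ) (v : Fin d → ℝ) :
    |th κ B j v| ≤ 1 + M * 2 ^ d := by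
  obtain ⟨i⟩ := ‹Nonempty (Fin d)›
  have h1 := hκ.mol_sub_le (rs_pos j) (a := fun v (_ : Fin d) => uc B (rs j) v)
    (continuous_pi fun _ => continuous_uc _ _) i v
  have h2 : |th κ B j v - uc B (rs j) v| ≤ M * 2 ^ d :=
    h1.trans (mul_le_mul_of_nonneg_left (osc_uc hκ B j v) (M_nonneg hκ))
  have h3 := uc_mem B (rs j) v
  have h4 : |uc B (rs j) v| ≤ 1 := by rw [abs_of_nonneg h3.1]; exact h3.2
  calc |th κ B j v| = |(th κ B j v - uc B (rs j) v) + uc B (rs j) v| := by ring_nf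
    _ ≤ |th κ B j v - uc B (rs j) v| + |uc B (rs j) v| := abs_add_le _ _
    _ ≤ 1 + M * 2 ^ d := by linarith

theorem abs_pd_th_le (B : Set (Fin d → ℝ)) (j : ℕ) (k : Fin d) (v : Fin d → ℝ) :
    |pd (th κ B j) k v| ≤ (rs j)⁻¹ * (M * 2 ^ d) := by
  have h1 := hκ.abs_pd_mol_le (rs_pos j) (a := fun v (_ : Fin d) => uc B (rs j) v)
    (continuous_pi fun _ => continuous_uc _ _) k k v
  have h2 := osc_uc hκ B j v
  have h3 := M_nonneg hκ
  have h4 := rs_pos j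
  calc |pd (th κ B j) k v| ≤ (rs j)⁻¹ * M * osc (fun v (_ : Fin d) => uc B (rs j) v) (rs j) v := h1
    _ ≤ (rs j)⁻¹ * M * 2 ^ d := by gcongr
    _ = (rs j)⁻¹ * (M * 2 ^ d) := by ring

variable {F : (Fin d → ℝ) → Fin d → ℝ} {α C : ℝ} (hα0 : 0 < α) (hα1 : α ≤ 1) (hC : 0 ≤ C)
  (hF : ∀ v w, ‖F v - F w‖ ≤ C * ‖v - w‖ ^ α)

include hα0 hF hC

theorem mol_F_sub (j : ℕ) (i : Fin d) (v : Fin d → ℝ) :
    |mol κ (rs j) (fun v => F v i) v - F v i| ≤ M * 2 ^ d * C * rs j ^ α := by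
  have h1 := hκ.mol_sub_le (rs_pos j) (continuous_of_hoelder hα0 hF) i v
  have h2 := osc_hoelder hα0 hC hF (rs_pos j) v
  have h3 := M_nonneg hκ
  calc _ ≤ M * osc F (rs j) v := h1
    _ ≤ M * (2 ^ d * (C * rs j ^ α)) := by gcongr
    _ = _ := by ring

theorem pd_mol_F (j : ℕ) (i k : Fin d) (v : Fin d → ℝ) :
    |pd (mol κ (rs j) (fun v => F v i)) k v| ≤ M * 2 ^ d * C * ((rs j)⁻¹ * rs j ^ α) := by
  have h1 := hκ.abs_pd_mol_le (rs_pos j) (continuous_of_hoelder hα0 hF) i k v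
  have h2 := osc_hoelder hα0 hC hF (rs_pos j) v
  have h3 := M_nonneg hκ
  have h4 := rs_pos j
  calc _ ≤ (rs j)⁻¹ * M * osc F (rs j) v := h1
    _ ≤ (rs j)⁻¹ * M * (2 ^ d * (C * rs j ^ α)) := by gcongr
    _ = _ := by ring

end

end Pool.Agent.TH290.Kak
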