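import Pool.Agent.TH290.Kak.Ext

set_option autoImplicit false
set_option linter.unusedSectionVars false

open MeasureTheory Set Finset Topology Filter

namespace Pool.Agent.TH290.Kak

open Pool.Agent.W769.Kak

variable {d : ℕ}

/-- difference of two consecutive mollifications, cut off near `B` -/
noncomputable def Df (κ : (Fin d → ℝ) → ℝ) (B : Set (Fin d → ℝ)) (F : (Fin d → ℝ) → Fin d → ℝ)
    (j : ℕ) (i : Fin d) (v : Fin d → ℝ) : ℝ :=
  th κ B j v * (mol κ (rs (j + 1)) (fun v => F v i) v - mol κ (rs j) (fun v => F v i) v)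

/-- the extension from `B` -/
noncomputable def ext (κ : (Fin d → ℝ) → ℝ) (B : Set (Fin d → ℝ)) (F : (Fin d → ℝ) → Fin d → ℝ)
    (v : Fin d → ℝ) (i : Fin d) : ℝ :=
  mol κ (rs 0) (fun v => F v i) v + ∑' j, Df κ B F j i v

/-- its partial sums -/
noncomputable def extJ (κ : (Fin d → ℝ) → ℝ) (B : Set (Fin d → ℝ)) (F : (Fin d → ℝ) → Fin d → ℝ)
    (J : ℕ) (i : Fin d) (v : Fin d → ℝ) : ℝ :=
  mol κ (rs 0) (fun v => F v i) v + ∑ j ∈ range J, Df κ B F j i v

section

variable {κ : (Fin d → ℝ) → ℝ} {M : ℝ} (hκ : IsKernel κ M)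
  {F : (Fin d → ℝ) → Fin d → ℝ} {α C : ℝ} (hα0 : 0 < α) (hC : 0 ≤ C)
  (hF : ∀ v w, ‖F v - F w‖ ≤ C * ‖v - w‖ ^ α)

include hκ hα0 hF hC

theorem contDiff_Df (B : Set (Fin d → ℝ)) (j : ℕ) (i : Fin d) : ContDiff ℝ 2 (Df κ B F j i) := by
  unfold Df
  have hc := continuous_of_hoelder hα0 hF
  exact (contDiff_th hκ B j).mul ((hκ.contDiff_mol (rs_pos _) (by fun_prop)).sub
    (hκ.contDiff_mol (rs_pos _) (by fun_prop)))

theorem contDiff_extJ (B : Set (Fin d → ℝ)) (J : ℕ) (i : Fin d) : ContDiff ℝ 2 (extJ κ B F J i) := by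
  unfold extJ
  have hc := continuous_of_hoelder hα0 hF
  exact (hκ.contDiff_mol (rs_pos _) (by fun_prop)).add
    (ContDiff.sum fun j _ => contDiff_Df hκ hα0 hC hF B j i)

theorem abs_Df_le [Nonempty (Fin d)] (B : Set (Fin d → ℝ)) (j : ℕ) (i : Fin d) (v : Fin d → ℝ) :
    |Df κ B F j i v| ≤ (1 + M * 2 ^ d) * (2 * (M * 2 ^ d * C)) * rs j ^ α := by
  unfold Df
  rw [abs_mul]
  have h1 := mol_F_sub hκ hα0 hC hF j i v
  have h2 := mol_F_sub hκ hα0 hC hF (j + 1) i v
  have h3 : rs (j + 1) ^ α ≤ rs j ^ α := by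
    have := rs_anti (Nat.le_succ j)
    have := rs_pos (j + 1)
    gcongr
  have h4 := M_nonneg hκ
  have h5 : |mol κ (rs (j + 1)) (fun v => F v i) v - mol κ (rs j) (fun v => F v i) v| ≤
      2 * (M * 2 ^ d * C) * rs j ^ α := by
    calc _ = |(mol κ (rs (j + 1)) (fun v => F v i) v - F v i) -
          (mol κ (rs j) (fun v => F v i) v - F v i)| := by ring_nf
      _ ≤ |mol κ (rs (j + 1)) (fun v => F v i) v - F v i| +
          |mol κ (rs j) (fun v => F v i) v - F v i| := abs_sub _ _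
      _ ≤ M * 2 ^ d * C * rs (j + 1) ^ α + M * 2 ^ d * C * rs j ^ α := add_le_add h2 h1
      _ ≤ M * 2 ^ d * C * rs j ^ α + M * 2 ^ d * C * rs j ^ α := by gcongr
      _ = _ := by ring
  calc _ ≤ (1 + M * 2 ^ d) * (2 * (M * 2 ^ d * C) * rs j ^ α) := by
        gcongr
        exact abs_th_le hκ B j v
    _ = _ := by ring

theorem continuous_ext [Nonempty (Fin d)] (B : Set (Fin d → ℝ)) : Continuous (ext κ B F) := by
  have hc := continuous_of_hoelder hα0 hF
  refine continuous_pi fun i => ?_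
  unfold ext
  refine (hκ.contDiff_mol (rs_pos _) (by fun_prop)).continuous.add ?_
  apply continuous_tsum (u := fun j => (1 + M * 2 ^ d) * (2 * (M * 2 ^ d * C)) * rs j ^ α)
  · exact fun j => (contDiff_Df hκ hα0 hC hF B j i).continuous
  · exact (summable_rs hα0).mul_left _
  · intro j v
    exact abs_Df_le hκ hα0 hC hF B j i v

theorem ext_eq_on {B : Set (Fin d → ℝ)} {v : Fin d → ℝ} (hv : v ∈ B) : ext κ B F v = F v := by
  funext i
  have hc := continuous_of_hoelder hα0 hF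
  have : Nonempty (Fin d) := ⟨i⟩
  unfold ext
  have h1 : Summable (fun j => Df κ B F j i v) :=
    Summable.of_norm_bounded ((summable_rs hα0).mul_left _)
      (fun j => abs_Df_le hκ hα0 hC hF B j i v)
  have h2 := h1.hasSum.tendsto_sum_nat
  have h3 : ∀ n, ∑ j ∈ range n, Df κ B F j i v =
      mol κ (rs n) (fun v => F v i) v - mol κ (rs 0) (fun v => F v i) v := by
    intro n
    rw [← Finset.sum_range_sub (fun n => mol κ (rs n) (fun v => F v i) v) n]
    refine Finset.sum_congr rfl fun j _ => ?_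
    rw [Df, th_one hκ j hv, one_mul]
  simp_rw [h3] at h2
  have h4 : Tendsto (fun n => mol κ (rs n) (fun v => F v i) v) atTop (𝓝 (F v i)) := by
    rw [tendsto_iff_norm_sub_tendsto_zero]
    have h5 : Tendsto (fun n => M * 2 ^ d * C * rs n ^ α) atTop (𝓝 0) := by
      have := ((summable_rs hα0).mul_left (M * 2 ^ d * C)).tendsto_atTop_zero
      exact this
    exact squeeze_zero (fun _ => norm_nonneg _) (fun n => mol_F_sub hκ hα0 hC hF n i v) h5
  have h6 := tendsto_nhds_unique h2 (h4.sub_const _)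
  rw [h6]; ring

theorem ext_eq_extJ {B : Set (Fin d → ℝ)} {J : ℕ} {v : Fin d → ℝ}
    (hv : 3 * rs J ≤ Metric.infDist v B) (i : Fin d) : ext κ B F v i = extJ κ B F J i v := by
  unfold ext extJ
  congr 1
  apply tsum_eq_sum
  intro j hj
  rw [Finset.mem_range, not_lt] at hj
  rw [Df, th_zero hκ j, zero_mul]
  have := rs_anti hj
  linarith

theorem ext_eventuallyEq {B : Set (Fin d → ℝ)} {J : ℕ} {v : Fin d → ℝ}
    (hv : 3 * rs J < Metric.infDist v B) :
    ext κ B F =ᶠ[𝓝 v] fun v i => extJ κ B F J i v := by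
  have h1 : ∀ᶠ w in 𝓝 v, 3 * rs J < Metric.infDist w B :=
    (Metric.continuous_infDist_pt B).continuousAt.eventually (lt_mem_nhds hv)
  filter_upwards [h1] with w hw
  funext i
  exact ext_eq_extJ hκ hα0 hC hF hw.le i

theorem contDiffOn_ext {B : Set (Fin d → ℝ)} (hB : IsClosed B) (hBne : B.Nonempty) :
    ContDiffOn ℝ 2 (ext κ B F) Bᶜ := by
  intro v hv
  have h1 : 0 < Metric.infDist v B := (hB.notMem_iff_infDist_pos hBne).1 hv
  obtain ⟨J, hJ⟩ := exists_rs_lt (x := Metric.infDist v B / 3) (by positivity)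
  have h2 := ext_eventuallyEq hκ hα0 hC hF (B := B) (J := J) (v := v) (by linarith)
  refine ContDiffAt.contDiffWithinAt ?_
  refine ContDiffAt.congr_of_eventuallyEq ?_ h2
  exact (contDiff_pi.2 fun i => contDiff_extJ hκ hα0 hC hF B J i).contDiffAt

omit hα0 hC hF in
theorem pd_th_zero {B : Set (Fin d → ℝ)} {j : ℕ} {v : Fin d → ℝ}
    (hv : 3 * rs j < Metric.infDist v B) (k : Fin d) : pd (th κ B j) k v = 0 := by
  have h1 : th κ B j =ᶠ[𝓝 v] fun _ => 0 := by
    have h1 : ∀ᶠ w in 𝓝 v, 3 * rs j < Metric.infDist w B :=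
      (Metric.continuous_infDist_pt B).continuousAt.eventually (lt_mem_nhds hv)
    filter_upwards [h1] with w hw
    exact th_zero hκ j hw.le
  rw [pd, h1.fderiv_eq]
  simp

theorem abs_pd_Df_le [Nonempty (Fin d)] (B : Set (Fin d → ℝ)) (j : ℕ) (i k : Fin d)
    (v : Fin d → ℝ) :
    |pd (Df κ B F j i) k v| ≤
      ((M * 2 ^ d) * (2 * (M * 2 ^ d * C)) + (1 + M * 2 ^ d) * (3 * (M * 2 ^ d * C))) *
        (if Metric.infDist v B ≤ 3 * rs j then rs j ^ (α - 1) else 0) := by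
  have hc := continuous_of_hoelder hα0 hF
  have hM := M_nonneg hκ
  have hr := rs_pos j
  have hr1 := rs_pos (j + 1)
  set a := mol κ (rs (j + 1)) (fun v => F v i) with ha
  set b := mol κ (rs j) (fun v => F v i) with hb
  have hda : DifferentiableAt ℝ a v :=
    (hκ.contDiff_mol hr1 (by fun_prop)).differentiable (by norm_num) v
  have hdb : DifferentiableAt ℝ b v :=
    (hκ.contDiff_mol hr (by fun_prop)).differentiable (by norm_num) v
  have hdt : DifferentiableAt ℝ (th κ B j) v :=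
    (contDiff_th hκ B j).differentiable (by norm_num) v
  have hpd : pd (Df κ B F j i) k v = th κ B j v * (pd a k v - pd b k v) +
      (a v - b v) * pd (th κ B j) k v := by
    have h1 := (hdt.hasFDerivAt.mul (hda.hasFDerivAt.sub hdb.hasFDerivAt)).fderiv
    have h2 : fderiv ℝ (Df κ B F j i) v = _ := h1
    rw [pd, h2]
    simp [pd]
  by_cases hv : Metric.infDist v B ≤ 3 * rs j
  · rw [if_pos hv, hpd]
    have e1 : (rs j)⁻¹ * rs j ^ α = rs j ^ (α - 1) := by
      rw [Real.rpow_sub hr, Real.rpow_one]; field_simp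
    have h1 := mol_F_sub hκ hα0 hC hF j i v
    have h2 := mol_F_sub hκ hα0 hC hF (j + 1) i v
    have h3 : rs (j + 1) ^ α ≤ rs j ^ α := by
      have := rs_anti (Nat.le_succ j)
      gcongr
    have h5 : |a v - b v| ≤ 2 * (M * 2 ^ d * C) * rs j ^ α := by
      calc _ = |(a v - F v i) - (b v - F v i)| := by ring_nf
        _ ≤ |a v - F v i| + |b v - F v i| := abs_sub _ _
        _ ≤ M * 2 ^ d * C * rs (j + 1) ^ α + M * 2 ^ d * C * rs j ^ α := add_le_add h2 h1
        _ ≤ M * 2 ^ d * C * rs j ^ α + M * 2 ^ d * C * rs j ^ α := by gcongr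
        _ = _ := by ring
    have h6 := pd_mol_F hκ hα0 hC hF j i k v
    have h7 := pd_mol_F hκ hα0 hC hF (j + 1) i k v
    have h8 : (rs (j + 1))⁻¹ * rs (j + 1) ^ α ≤ 2 * rs j ^ (α - 1) := by
      rw [← e1, rs_succ, inv_div, div_eq_mul_inv]
      have : (rs j / 2) ^ α ≤ rs j ^ α := by
        gcongr; linarith
      calc 2 * (rs j)⁻¹ * (rs j / 2) ^ α ≤ 2 * (rs j)⁻¹ * rs j ^ α := by gcongr
        _ = 2 * ((rs j)⁻¹ * rs j ^ α) := by ring
    rw [e1] at h6
    have h9 : |pd a k v - pd b k v| ≤ 3 * (M * 2 ^ d * C) * rs j ^ (α - 1) := by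
      calc _ ≤ |pd a k v| + |pd b k v| := abs_sub _ _
        _ ≤ M * 2 ^ d * C * (2 * rs j ^ (α - 1)) + M * 2 ^ d * C * rs j ^ (α - 1) := by
            gcongr
            exact h7.trans (by gcongr)
        _ = _ := by ring
    have h10 := abs_th_le hκ B j v
    have h11 := abs_pd_th_le hκ B j k v
    calc |th κ B j v * (pd a k v - pd b k v) + (a v - b v) * pd (th κ B j) k v|
        ≤ |th κ B j v| * |pd a k v - pd b k v| + |a v - b v| * |pd (th κ B j) k v| := by
          refine (abs_add_le _ _).trans ?_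
          rw [abs_mul, abs_mul]
      _ ≤ (1 + M * 2 ^ d) * (3 * (M * 2 ^ d * C) * rs j ^ (α - 1)) +
          (2 * (M * 2 ^ d * C) * rs j ^ α) * ((rs j)⁻¹ * (M * 2 ^ d)) := by gcongr
      _ = (1 + M * 2 ^ d) * (3 * (M * 2 ^ d * C) * rs j ^ (α - 1)) +
          (M * 2 ^ d) * (2 * (M * 2 ^ d * C)) * ((rs j)⁻¹ * rs j ^ α) := by ring
      _ = _ := by rw [e1]; ring
  · rw [if_neg hv, mul_zero, hpd]
    rw [not_le] at hv
    rw [th_zero hκ j hv.le, pd_th_zero hκ hv k]
    simp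

theorem abs_pd_extJ_le [Nonempty (Fin d)] (B : Set (Fin d → ℝ)) (J : ℕ) (i k : Fin d)
    (v : Fin d → ℝ) :
    |pd (extJ κ B F J i) k v| ≤ M * 2 ^ d * C +
      ((M * 2 ^ d) * (2 * (M * 2 ^ d * C)) + (1 + M * 2 ^ d) * (3 * (M * 2 ^ d * C))) *
        ∑ j ∈ range J, (if Metric.infDist v B ≤ 3 * rs j then rs j ^ (α - 1) else 0) := by
  have hc := continuous_of_hoelder hα0 hF
  have h1 : pd (extJ κ B F J i) k v = pd (mol κ (rs 0) (fun v => F v i)) k v +
      ∑ j ∈ range J, pd (Df κ B F j i) k v := by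
    have hd0 : DifferentiableAt ℝ (mol κ (rs 0) (fun v => F v i)) v :=
      (hκ.contDiff_mol (rs_pos 0) (by fun_prop)).differentiable (by norm_num) v
    have hdj : ∀ j ∈ range J, HasFDerivAt (Df κ B F j i) (fderiv ℝ (Df κ B F j i) v) v := fun j _ =>
      ((contDiff_Df hκ hα0 hC hF B j i).differentiable (by norm_num) v).hasFDerivAt
    have h2 := (hd0.hasFDerivAt.add (HasFDerivAt.fun_sum hdj)).fderiv
    have h3 : fderiv ℝ (extJ κ B F J i) v = _ := h2
    rw [pd, h3]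
    simp [pd]
  rw [h1]
  have h2 := pd_mol_F hκ hα0 hC hF 0 i k v
  have h3 : (rs 0)⁻¹ * rs 0 ^ α = 1 := by simp [rs]
  rw [h3, mul_one] at h2
  refine (abs_add_le _ _).trans (add_le_add h2 ?_)
  rw [Finset.mul_sum]
  refine (Finset.abs_sum_le_sum_abs _ _).trans (Finset.sum_le_sum fun j _ => ?_)
  exact abs_pd_Df_le hκ hα0 hC hF B j i k v

end

end Pool.Agent.TH290.Kak
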