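import Mathlib

set_option autoImplicit false

open MeasureTheory Set Finset Topology Filter
open scoped ENNReal

namespace Pool.Agent.TH290.Kak

variable {d : ℕ}

/-- grid cubes -/
def cube (N : ℝ) (z : Fin d → ℤ) : Set (Fin d → ℝ) :=
  Set.pi univ fun i => Set.Ico ((z i : ℝ) / N) (((z i : ℝ) + 1) / N)

theorem volume_cube {N : ℝ} (hN : 0 < N) (z : Fin d → ℤ) :
    volume (cube N z) = ENNReal.ofReal ((N⁻¹) ^ d) := by
  unfold cube
  rw [volume_pi_pi]
  have h : ∀ i, volume (Set.Ico ((z i : ℝ) / N) (((z i : ℝ) + 1) / N)) = ENNReal.ofReal N⁻¹ := by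
    intro i
    rw [Real.volume_Ico]
    congr 1
    rw [add_div, one_div]; ring
  simp_rw [h]
  rw [Finset.prod_const, Finset.card_univ, Fintype.card_fin, ENNReal.ofReal_pow (by positivity)]

theorem mem_cube {N : ℝ} (hN : 0 < N) (v : Fin d → ℝ) : v ∈ cube N (fun i => ⌊v i * N⌋) := by
  intro i _
  constructor
  · rw [div_le_iff₀ hN]; exact Int.floor_le _
  · rw [lt_div_iff₀ hN]; exact Int.lt_floor_add_one _

theorem dist_cube {N : ℝ} (hN : 0 < N) {z : Fin d → ℤ} {v w : Fin d → ℝ} (hv : v ∈ cube N z)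
    (hw : w ∈ cube N z) : dist v w ≤ N⁻¹ := by
  rw [dist_pi_le_iff (by positivity)]
  intro i
  have h1 := hv i (mem_univ i)
  have h2 := hw i (mem_univ i)
  simp only [Set.mem_Ico] at h1 h2
  rw [add_div, one_div] at h1 h2
  rw [Real.dist_eq, abs_le]
  constructor <;> linarith [h1.1, h1.2, h2.1, h2.2]

theorem disjoint_cube {N : ℝ} (hN : 0 < N) : Pairwise (Function.onFun Disjoint (cube (d := d) N)) := by
  intro z z' hzz'
  rw [Function.onFun, Set.disjoint_left]
  intro v hv hv'
  apply hzz'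
  funext i
  have h1 := hv i (mem_univ i)
  have h2 := hv' i (mem_univ i)
  simp only [Set.mem_Ico, div_le_iff₀ hN, lt_div_iff₀ hN] at h1 h2
  have e1 : ⌊v i * N⌋ = z i := Int.floor_eq_iff.2 h1
  have e2 : ⌊v i * N⌋ = z' i := Int.floor_eq_iff.2 h2
  rw [← e1, e2]

theorem measurableSet_cube (N : ℝ) (z : Fin d → ℤ) : MeasurableSet (cube N z) :=
  MeasurableSet.univ_pi fun _ => measurableSet_Ico

/-- Hölder images of sets of small Minkowski content are null. -/
theorem null_image {B : Set (Fin d → ℝ)} {A β α C : ℝ} (hα0 : 0 < α)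
    (hA : ∀ r, 0 < r → r ≤ 1 → volume (Metric.cthickening r B) ≤ ENNReal.ofReal (A * r ^ β))
    (hαβ : (d : ℝ) - β < α * d) {F : (Fin d → ℝ) → Fin d → ℝ}
    (hF : ∀ v ∈ B, ∀ w ∈ B, ‖F v - F w‖ ≤ C * ‖v - w‖ ^ α) : volume (F '' B) = 0 := by
  classical
  have key : ∀ n : ℕ, volume (F '' B) ≤
      ENNReal.ofReal ((2 * |C|) ^ d * |A| * (((n : ℝ) + 1)⁻¹) ^ (α * d + β - d)) := by
    intro n
    set N : ℝ := (n : ℝ) + 1 with hN
    have hN0 : 0 < N := by positivity
    have hNi : N⁻¹ ≤ 1 := by
      rw [inv_le_one₀ hN0]; rw [hN]; have := Nat.cast_nonneg (α := ℝ) n; linarith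
    set Z : Set (Fin d → ℤ) := {z | (B ∩ cube N z).Nonempty} with hZ
    have h1 : F '' B ⊆ ⋃ z, F '' (B ∩ cube N z) := by
      rintro _ ⟨v, hv, rfl⟩
      rw [mem_iUnion]
      exact ⟨_, v, ⟨hv, mem_cube hN0 v⟩, rfl⟩
    have hr0 : 0 ≤ |C| * (N⁻¹) ^ α := by positivity
    have h2 : ∀ z, volume (F '' (B ∩ cube N z)) ≤
        ENNReal.ofReal ((2 * (|C| * (N⁻¹) ^ α)) ^ d * N ^ d) *
          (if z ∈ Z then volume (cube N z) else 0) := by
      intro z
      by_cases hz : z ∈ Z
      · rw [if_pos hz, volume_cube hN0, ← ENNReal.ofReal_mul (by positivity), mul_assoc,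
          ← mul_pow N, mul_inv_cancel₀ hN0.ne', one_pow, mul_one]
        obtain ⟨x, hxB, hxz⟩ := hz
        have h3 : F '' (B ∩ cube N z) ⊆ Metric.closedBall (F x) (|C| * (N⁻¹) ^ α) := by
          rintro _ ⟨v, ⟨hv, hvz⟩, rfl⟩
          rw [Metric.mem_closedBall, dist_eq_norm]
          calc ‖F v - F x‖ ≤ C * ‖v - x‖ ^ α := hF v hv x hxB
            _ ≤ |C| * (N⁻¹) ^ α := by
              have := dist_cube hN0 hvz hxz
              rw [dist_eq_norm] at this
              gcongr
              exact le_abs_self C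
        refine (measure_mono h3).trans ?_
        rw [Real.volume_pi_closedBall _ hr0, Fintype.card_fin]
      · rw [if_neg hz, mul_zero]
        have : B ∩ cube N z = ∅ := by
          rw [← Set.not_nonempty_iff_eq_empty]; exact hz
        rw [this]; simp
    have h4 : ∑' z, (if z ∈ Z then volume (cube N z) else 0) ≤
        volume (Metric.cthickening (N⁻¹) B) := by
      have h5 : ∑' z, (if z ∈ Z then volume (cube N z) else 0) =
          ∑' z, volume (if z ∈ Z then cube N z else ∅) := by
        congr 1; funext z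
        split_ifs <;> simp
      rw [h5, ← measure_iUnion]
      · apply measure_mono
        apply iUnion_subset
        intro z
        split_ifs with hz
        · obtain ⟨x, hxB, hxz⟩ := hz
          intro v hv
          exact Metric.mem_cthickening_of_dist_le v x _ _ hxB (dist_cube hN0 hv hxz)
        · exact empty_subset _
      · intro z z' hzz'
        have := disjoint_cube (d := d) hN0 hzz'
        simp only [Function.onFun] at this ⊢
        split_ifs
        · exact this
        · simp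
        · simp
        · simp
      · intro z
        split_ifs
        · exact measurableSet_cube _ _
        · exact MeasurableSet.empty
    calc volume (F '' B) ≤ volume (⋃ z, F '' (B ∩ cube N z)) := measure_mono h1
      _ ≤ ∑' z, volume (F '' (B ∩ cube N z)) := measure_iUnion_le _
      _ ≤ ∑' z, ENNReal.ofReal ((2 * (|C| * (N⁻¹) ^ α)) ^ d * N ^ d) *
          (if z ∈ Z then volume (cube N z) else 0) := ENNReal.tsum_le_tsum h2
      _ = ENNReal.ofReal ((2 * (|C| * (N⁻¹) ^ α)) ^ d * N ^ d) *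
          ∑' z, (if z ∈ Z then volume (cube N z) else 0) := ENNReal.tsum_mul_left
      _ ≤ ENNReal.ofReal ((2 * (|C| * (N⁻¹) ^ α)) ^ d * N ^ d) *
          ENNReal.ofReal (|A| * (N⁻¹) ^ β) := by
          gcongr
          refine h4.trans ((hA _ (by positivity) hNi).trans ?_)
          apply ENNReal.ofReal_le_ofReal
          gcongr
          exact le_abs_self A
      _ = ENNReal.ofReal ((2 * |C|) ^ d * |A| * (N⁻¹) ^ (α * d + β - d)) := by
          rw [← ENNReal.ofReal_mul (by positivity)]
          congr 1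
          have e1 : N ^ d = (N⁻¹) ^ (-(d : ℝ)) := by
            rw [Real.rpow_neg (by positivity), Real.rpow_natCast, inv_pow, inv_inv]
          have e2 : (2 * (|C| * (N⁻¹) ^ α)) ^ d = (2 * |C|) ^ d * (N⁻¹) ^ (α * d) := by
            rw [← mul_assoc, mul_pow, ← Real.rpow_natCast ((N⁻¹) ^ α), ← Real.rpow_mul (by positivity)]
          rw [e1, e2]
          have e3 : (N⁻¹) ^ (α * d + β - d) = (N⁻¹) ^ (α * d) * (N⁻¹) ^ β * (N⁻¹) ^ (-(d : ℝ)) := by
            rw [← Real.rpow_add (by positivity), ← Real.rpow_add (by positivity)]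
            rfl
          rw [e3]; ring
  have hlim : Tendsto (fun n : ℕ => ENNReal.ofReal ((2 * |C|) ^ d * |A| *
      (((n : ℝ) + 1)⁻¹) ^ (α * d + β - d))) atTop (𝓝 0) := by
    have h1 : Tendsto (fun n : ℕ => (((n : ℝ) + 1)⁻¹)) atTop (𝓝 0) := by
      simpa using tendsto_one_div_add_atTop_nhds_zero_nat (𝕜 := ℝ)
    have h2 : Tendsto (fun n : ℕ => (((n : ℝ) + 1)⁻¹) ^ (α * d + β - d)) atTop (𝓝 0) := by
      have := h1.rpow_const (p := α * d + β - d) (Or.inr (by linarith))
      rwa [Real.zero_rpow (by linarith)] at this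
    have h3 := (h2.const_mul ((2 * |C|) ^ d * |A|))
    rw [mul_zero] at h3
    have := ENNReal.tendsto_ofReal h3
    simpa using this
  exact le_antisymm (ge_of_tendsto' hlim key) zero_le

end Pool.Agent.TH290.Kak
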