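import Pool.Agent.TH290.Kak.Ext2
import Pool.Agent.TH290.Kak.Null

set_option autoImplicit false
set_option linter.unusedSectionVars false

open MeasureTheory Set Finset Topology Filter

namespace Pool.Agent.TH290.Kak

open Pool.Agent.W769.Kak

variable {d : ℕ}

theorem sum_pow_le (hd : 0 < d) (J : ℕ) (q c : ℕ → ℝ) {S : ℝ} (hq : ∀ j, 0 ≤ q j)
    (hc : ∀ j, 0 ≤ c j) (hS : ∑ j ∈ range J, c j ≤ S) :
    (∑ j ∈ range J, c j * q j) ^ d ≤ S ^ d * ∑ j ∈ range J, q j ^ d := by
  rcases Nat.eq_zero_or_pos J with hJ | hJ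
  · subst hJ
    simp [zero_pow hd.ne']
  · obtain ⟨m, hm, hmax⟩ := Finset.exists_max_image (range J) q ⟨0, Finset.mem_range.2 hJ⟩
    have h1 : ∑ j ∈ range J, c j * q j ≤ S * q m := by
      calc ∑ j ∈ range J, c j * q j ≤ ∑ j ∈ range J, c j * q m :=
            Finset.sum_le_sum fun j hj => mul_le_mul_of_nonneg_left (hmax j hj) (hc j)
        _ = (∑ j ∈ range J, c j) * q m := by rw [Finset.sum_mul]
        _ ≤ S * q m := mul_le_mul_of_nonneg_right hS (hq m)
    have h0 : 0 ≤ ∑ j ∈ range J, c j * q j :=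
      Finset.sum_nonneg fun j _ => mul_nonneg (hc j) (hq j)
    have hS0 : 0 ≤ S := (Finset.sum_nonneg fun j _ => hc j).trans hS
    calc (∑ j ∈ range J, c j * q j) ^ d ≤ (S * q m) ^ d := by gcongr
      _ = S ^ d * q m ^ d := by rw [mul_pow]
      _ ≤ S ^ d * ∑ j ∈ range J, q j ^ d := by
          gcongr
          exact Finset.single_le_sum (f := fun j => q j ^ d) (fun j _ => pow_nonneg (hq j) d) hm

/-- the weight at scale `j` -/
noncomputable def qw (B : Set (Fin d → ℝ)) (s : ℝ) (j : ℕ) (v : Fin d → ℝ) : ℝ :=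
  if Metric.infDist v B ≤ 3 * rs j then rs j ^ s else 0

theorem qw_nonneg (B : Set (Fin d → ℝ)) (s : ℝ) (j : ℕ) (v : Fin d → ℝ) : 0 ≤ qw B s j v := by
  unfold qw
  have := rs_pos j
  split_ifs
  · positivity
  · exact le_rfl

theorem qw_split (B : Set (Fin d → ℝ)) (s σ : ℝ) (j : ℕ) (v : Fin d → ℝ) :
    qw B s j v = rs j ^ σ * qw B (s - σ) j v := by
  unfold qw
  have := rs_pos j
  split_ifs
  · rw [← Real.rpow_add this]; ring_nf
  · simp

theorem measurable_qw (B : Set (Fin d → ℝ)) (s : ℝ) (j : ℕ) : Measurable (qw B s j) := by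
  unfold qw
  apply Measurable.ite
  · exact measurableSet_le (Metric.continuous_infDist_pt B).measurable measurable_const
  · exact measurable_const
  · exact measurable_const

theorem volume_layer {B : Set (Fin d → ℝ)} (hB : IsCompact B) {A β : ℝ} (hβ : 0 < β)
    (hA : ∀ r, 0 < r → r ≤ 1 → volume (Metric.cthickening r B) ≤ ENNReal.ofReal (A * r ^ β)) :
    ∃ A' : ℝ, 0 ≤ A' ∧ ∀ r, 0 < r → r ≤ 3 →
      volume (Metric.cthickening r B) ≤ ENNReal.ofReal (A' * r ^ β) := by
  have hfin : volume (Metric.cthickening 3 B) < ⊤ := by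
    apply Bornology.IsBounded.measure_lt_top
    exact hB.isBounded.cthickening
  refine ⟨max |A| (volume (Metric.cthickening 3 B)).toReal, le_max_of_le_left (abs_nonneg _), ?_⟩
  intro r hr hr3
  rcases le_or_gt r 1 with h | h
  · refine (hA r hr h).trans (ENNReal.ofReal_le_ofReal ?_)
    gcongr
    exact (le_abs_self A).trans (le_max_left _ _)
  · calc volume (Metric.cthickening r B) ≤ volume (Metric.cthickening 3 B) :=
          measure_mono (Metric.cthickening_mono hr3 B)
      _ = ENNReal.ofReal (volume (Metric.cthickening 3 B)).toReal := (ENNReal.ofReal_toReal hfin.ne).symm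
      _ ≤ _ := by
        apply ENNReal.ofReal_le_ofReal
        have h1 : 1 ≤ r ^ β := Real.one_le_rpow h.le hβ.le
        calc (volume (Metric.cthickening 3 B)).toReal ≤
            max |A| (volume (Metric.cthickening 3 B)).toReal := le_max_right _ _
          _ = max |A| (volume (Metric.cthickening 3 B)).toReal * 1 := (mul_one _).symm
          _ ≤ _ := by gcongr

theorem lintegral_qw (hd : 0 < d) {B : Set (Fin d → ℝ)} (hB : IsCompact B) (hBne : B.Nonempty) {A β s : ℝ}
    (hβ : 0 < β)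
    (hA : ∀ r, 0 < r → r ≤ 1 → volume (Metric.cthickening r B) ≤ ENNReal.ofReal (A * r ^ β))
    (hs : 0 < s * d + β) :
    ∑' j, ∫⁻ v, ENNReal.ofReal (qw B s j v ^ d) ≠ ⊤ := by
  classical
  · obtain ⟨A', hA'0, hA'⟩ := volume_layer hB hβ hA
    have h1 : ∀ j, ∫⁻ v, ENNReal.ofReal (qw B s j v ^ d) ≤
        ENNReal.ofReal (A' * 3 ^ β * rs j ^ (s * d + β)) := by
      intro j
      have hr := rs_pos j
      set L : Set (Fin d → ℝ) := {v | Metric.infDist v B ≤ 3 * rs j} with hL
      have hLm : MeasurableSet L :=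
        measurableSet_le (Metric.continuous_infDist_pt B).measurable measurable_const
      have h2 : (fun v => ENNReal.ofReal (qw B s j v ^ d)) =
          L.indicator fun _ => ENNReal.ofReal ((rs j ^ s) ^ d) := by
        funext v
        by_cases hv : v ∈ L
        · rw [indicator_of_mem hv, qw, if_pos (show Metric.infDist v B ≤ 3 * rs j from hv)]
        · rw [indicator_of_notMem hv, qw, if_neg (show ¬ Metric.infDist v B ≤ 3 * rs j from hv), zero_pow hd.ne', ENNReal.ofReal_zero]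
      rw [h2, lintegral_indicator hLm, setLIntegral_const]
      have h3 : L ⊆ Metric.cthickening (3 * rs j) B := by
        intro v hv
        obtain ⟨b, hb, hvb⟩ := hB.exists_infDist_eq_dist hBne v
        apply Metric.mem_cthickening_of_dist_le v b _ _ hb
        rw [← hvb]; exact hv
      calc ENNReal.ofReal ((rs j ^ s) ^ d) * volume L
          ≤ ENNReal.ofReal ((rs j ^ s) ^ d) * ENNReal.ofReal (A' * (3 * rs j) ^ β) := by
            gcongr
            exact (measure_mono h3).trans (hA' _ (by positivity) (by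
              have := rs_le_one j; linarith))
        _ = _ := by
            rw [← ENNReal.ofReal_mul (by positivity)]
            congr 1
            rw [Real.mul_rpow (by norm_num) hr.le, ← Real.rpow_natCast, ← Real.rpow_mul hr.le,
              Real.rpow_add hr]
            ring
    refine ne_top_of_le_ne_top ?_ (ENNReal.tsum_le_tsum h1)
    apply Summable.tsum_ofReal_ne_top
    exact (summable_rs hs).mul_left _

section

variable {κ : (Fin d → ℝ) → ℝ} {M : ℝ} (hκ : IsKernel κ M)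
  {F : (Fin d → ℝ) → Fin d → ℝ} {α C : ℝ} (hα0 : 0 < α) (hC : 0 ≤ C)
  (hF : ∀ v w, ‖F v - F w‖ ≤ C * ‖v - w‖ ^ α)

include hκ hα0 hF hC

theorem integrable_det (hd : 0 < d) {B : Set (Fin d → ℝ)} (hB : IsCompact B) (hBne : B.Nonempty)
    {A β : ℝ} (hβ : 0 < β)
    (hA : ∀ r, 0 < r → r ≤ 1 → volume (Metric.cthickening r B) ≤ ENNReal.ofReal (A * r ^ β))
    (hαβ : (d : ℝ) - β < α * d) {Ω : Set (Fin d → ℝ)} (hΩ : IsOpen Ω)
    (hb : Bornology.IsBounded Ω) (hΩB : Ω ⊆ Bᶜ) (t : ℝ) :
    IntegrableOn (fun v => (fderiv ℝ (hm (ext κ B F) t) v).det) Ω := by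
  have : Nonempty (Fin d) := ⟨⟨0, hd⟩⟩
  have hM := M_nonneg hκ
  have hext := contDiffOn_ext hκ hα0 hC hF hB.isClosed hBne
  have hh2 : ContDiffOn ℝ 2 (hm (ext κ B F) t) Ω := by
    unfold hm; exact (hext.mono hΩB).add (contDiff_id.const_smul t).contDiffOn
  have hdc : ContinuousOn (fun v => (fderiv ℝ (hm (ext κ B F) t) v).det) Ω :=
    ContinuousLinearMap.continuous_det.comp_continuousOn
      (hh2.continuousOn_fderiv_of_isOpen hΩ (by norm_num))
  set K0 : ℝ := M * 2 ^ d * C + |t| with hK0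
  set K2 : ℝ := (M * 2 ^ d) * (2 * (M * 2 ^ d * C)) + (1 + M * 2 ^ d) * (3 * (M * 2 ^ d * C))
    with hK2
  have hK0' : 0 ≤ K0 := by positivity
  have hK2' : 0 ≤ K2 := by positivity
  have hdR : (0 : ℝ) < d := by exact_mod_cast hd
  set σ : ℝ := (α * d + β - d) / (2 * d) with hσ
  have hσ0 : 0 < σ := by
    rw [hσ]; apply div_pos <;> linarith
  have hs : 0 < (α - 1 - σ) * d + β := by
    have : σ * d = (α * d + β - d) / 2 := by rw [hσ]; field_simp
    nlinarith
  set S : ℝ := ∑' j, rs j ^ σ with hS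
  have hSsum := summable_rs hσ0
  have hS0 : 0 ≤ S := tsum_nonneg fun j => by have := rs_pos j; positivity
  set c1 : ℝ := (d.factorial : ℝ) * 2 ^ (d - 1) * K0 ^ d with hc1
  set c2 : ℝ := (d.factorial : ℝ) * 2 ^ (d - 1) * K2 ^ d * S ^ d with hc2
  have hc1' : 0 ≤ c1 := by positivity
  have hc2' : 0 ≤ c2 := by positivity
  -- pointwise bound
  have hpt : ∀ v ∈ Ω, ‖(fderiv ℝ (hm (ext κ B F) t) v).det‖ₑ ≤ ENNReal.ofReal c1 +
      ENNReal.ofReal c2 * ∑' j, ENNReal.ofReal (qw B (α - 1 - σ) j v ^ d) := by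
    intro v hv
    have hvB : v ∉ B := hΩB hv
    have h1 : 0 < Metric.infDist v B := (hB.isClosed.notMem_iff_infDist_pos hBne).1 hvB
    obtain ⟨J, hJ⟩ := exists_rs_lt (x := Metric.infDist v B / 3) (by positivity)
    have h2 := ext_eventuallyEq hκ hα0 hC hF (B := B) (J := J) (v := v) (by linarith)
    have hdv : DifferentiableAt ℝ (ext κ B F) v :=
      (hext.differentiableOn (by norm_num)).differentiableAt (hB.isClosed.isOpen_compl.mem_nhds hvB)
    rw [fderiv_hm t hdv]
    set X : ℝ := ∑ j ∈ range J, qw B (α - 1) j v with hX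
    have hentry : ∀ i k, |(LinearMap.toMatrix' (fderiv ℝ (ext κ B F) v :
        (Fin d → ℝ) →ₗ[ℝ] (Fin d → ℝ)) + t • (1 : Matrix (Fin d) (Fin d) ℝ)) i k| ≤
        K0 + K2 * X := by
      intro i k
      have h3 : LinearMap.toMatrix' (fderiv ℝ (ext κ B F) v :
        (Fin d → ℝ) →ₗ[ℝ] (Fin d → ℝ)) i k = pd (extJ κ B F J i) k v := by
        rw [LinearMap.toMatrix'_apply, h2.fderiv_eq]
        have h4 : fderiv ℝ (fun v i => extJ κ B F J i v) v =
            ContinuousLinearMap.pi fun i => fderiv ℝ (extJ κ B F J i) v :=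
          (hasFDerivAt_pi.2 fun i => ((contDiff_extJ hκ hα0 hC hF B J i).differentiable
            (by norm_num) v).hasFDerivAt).fderiv
        rw [h4]
        rfl
      have h5 := abs_pd_extJ_le hκ hα0 hC hF B J i k v
      rw [Matrix.add_apply, Matrix.smul_apply, h3, smul_eq_mul, Matrix.one_apply]
      have h6 : |t * (if i = k then (1 : ℝ) else 0)| ≤ |t| := by
        split_ifs <;> simp
      refine (abs_add_le _ _).trans ?_
      have h7 : |pd (extJ κ B F J i) k v| ≤ M * 2 ^ d * C + K2 * X := h5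
      rw [hK0]
      linarith
    have hdet : |(LinearMap.toMatrix' (fderiv ℝ (ext κ B F) v :
        (Fin d → ℝ) →ₗ[ℝ] (Fin d → ℝ)) + t • (1 : Matrix (Fin d) (Fin d) ℝ)).det| ≤
        (d.factorial : ℝ) * (K0 + K2 * X) ^ d := by
      have := Matrix.det_le (abv := AbsoluteValue.abs) (x := K0 + K2 * X)
        (A := (LinearMap.toMatrix' (fderiv ℝ (ext κ B F) v :
        (Fin d → ℝ) →ₗ[ℝ] (Fin d → ℝ)) + t • (1 : Matrix (Fin d) (Fin d) ℝ))) hentry
      simpa [nsmul_eq_mul] using this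
    have hX0 : 0 ≤ X := Finset.sum_nonneg fun j _ => qw_nonneg _ _ _ _
    have hXpow : X ^ d ≤ S ^ d * ∑ j ∈ range J, qw B (α - 1 - σ) j v ^ d := by
      have h8 : X = ∑ j ∈ range J, rs j ^ σ * qw B (α - 1 - σ) j v :=
        Finset.sum_congr rfl fun j _ => qw_split B (α - 1) σ j v
      rw [h8]
      apply sum_pow_le hd J _ _ (fun j => qw_nonneg _ _ _ _)
        (fun j => by have := rs_pos j; positivity)
      exact hSsum.sum_le_tsum _ fun j _ => by have := rs_pos j; positivity
    have hmain : |(LinearMap.toMatrix' (fderiv ℝ (ext κ B F) v :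
        (Fin d → ℝ) →ₗ[ℝ] (Fin d → ℝ)) + t • (1 : Matrix (Fin d) (Fin d) ℝ)).det| ≤
        c1 + c2 * ∑ j ∈ range J, qw B (α - 1 - σ) j v ^ d := by
      calc _ ≤ (d.factorial : ℝ) * (K0 + K2 * X) ^ d := hdet
        _ ≤ (d.factorial : ℝ) * (2 ^ (d - 1) * (K0 ^ d + (K2 * X) ^ d)) := by
            gcongr
            exact add_pow_le hK0' (by positivity) d
        _ = c1 + (d.factorial : ℝ) * 2 ^ (d - 1) * K2 ^ d * X ^ d := by
            rw [hc1, mul_pow]; ring
        _ ≤ c1 + (d.factorial : ℝ) * 2 ^ (d - 1) * K2 ^ d *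
            (S ^ d * ∑ j ∈ range J, qw B (α - 1 - σ) j v ^ d) := by gcongr
        _ = _ := by rw [hc2]; ring
    rw [← ofReal_norm, Real.norm_eq_abs]
    refine (ENNReal.ofReal_le_ofReal hmain).trans ?_
    rw [ENNReal.ofReal_add hc1' (by
      apply mul_nonneg hc2'
      exact Finset.sum_nonneg fun j _ => pow_nonneg (qw_nonneg _ _ _ _) d),
      ENNReal.ofReal_mul hc2', ENNReal.ofReal_sum_of_nonneg
        fun j _ => pow_nonneg (qw_nonneg _ _ _ _) d]
    gcongr
    exact ENNReal.sum_le_tsum _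
  refine ⟨hdc.aestronglyMeasurable hΩ.measurableSet, ?_⟩
  rw [hasFiniteIntegral_iff_enorm]
  calc ∫⁻ v in Ω, ‖(fderiv ℝ (hm (ext κ B F) t) v).det‖ₑ
      ≤ ∫⁻ v in Ω, (ENNReal.ofReal c1 +
      ENNReal.ofReal c2 * ∑' j, ENNReal.ofReal (qw B (α - 1 - σ) j v ^ d)) :=
        setLIntegral_mono' hΩ.measurableSet hpt
    _ = ENNReal.ofReal c1 * volume Ω + ENNReal.ofReal c2 *
        ∑' j, ∫⁻ v in Ω, ENNReal.ofReal (qw B (α - 1 - σ) j v ^ d) := by
        rw [lintegral_add_left measurable_const, setLIntegral_const,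
          lintegral_const_mul' _ _ ENNReal.ofReal_ne_top, lintegral_tsum]
        intro j
        exact ((measurable_qw B _ j).pow_const d).ennreal_ofReal.aemeasurable
    _ ≤ ENNReal.ofReal c1 * volume Ω + ENNReal.ofReal c2 *
        ∑' j, ∫⁻ v, ENNReal.ofReal (qw B (α - 1 - σ) j v ^ d) := by
        gcongr
        exact Measure.restrict_le_self
    _ < ⊤ := by
        apply ENNReal.add_lt_top.2
        constructor
        · exact ENNReal.mul_lt_top ENNReal.ofReal_lt_top hb.measure_lt_top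
        · exact ENNReal.mul_lt_top ENNReal.ofReal_lt_top
            (lt_top_iff_ne_top.2 (lintegral_qw hd hB hBne hβ hA hs))

end

end Pool.Agent.TH290.Kak
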