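import Pool.Agent.TH290.Kak.Ext3

set_option autoImplicit false

open MeasureTheory Set Finset Topology Filter
open scoped ENNReal

namespace Pool.Agent.TH290.Kak

open Pool.Agent.W769.Kak

variable {d : ℕ}

/-- **Main theorem**: at most `d` bad heights. -/
theorem main (hd : 0 < d) {Ω : Set (Fin d → ℝ)} (hΩ : IsOpen Ω) (hb : Bornology.IsBounded Ω)
    (hΩne : Ω.Nonempty) {A β : ℝ} (hβ : 0 < β)
    (hA : ∀ r, 0 < r → r ≤ 1 →
      volume (Metric.cthickening r (frontier Ω)) ≤ ENNReal.ofReal (A * r ^ β))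
    {α C : ℝ} (hα0 : 0 < α) (hα1 : α ≤ 1) (hαβ : (d : ℝ) - β < α * d)
    {Γ : Set ((Fin d → ℝ) × (Fin d → ℝ))} (hΓ : IsCompact Γ)
    (hne : ∀ v ∈ closure Ω, ∃ b, (v, b) ∈ Γ)
    (hconv : ∀ v ∈ closure Ω, Convex ℝ {b | (v, b) ∈ Γ})
    {g : (Fin d → ℝ) → Fin d → ℝ} (hgΓ : ∀ v ∈ frontier Ω, (v, g v) ∈ Γ)
    (hg : ∀ v ∈ frontier Ω, ∀ w ∈ frontier Ω, ‖g v - g w‖ ≤ C * ‖v - w‖ ^ α) :
    {t : ℝ | ¬ Good Γ t}.encard ≤ d := by
  have : Nonempty (Fin d) := ⟨⟨0, hd⟩⟩
  obtain ⟨κ, M, hκ⟩ := exists_kernel d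
  obtain ⟨F, hFg, hF⟩ := mcshane hα0 hα1 hg
  set B := frontier Ω with hB
  have hBc : IsCompact B := Metric.isCompact_of_isClosed_isBounded isClosed_frontier
    (hb.closure.subset frontier_subset_closure)
  have hBne : B.Nonempty := by
    rw [hB, nonempty_frontier_iff]
    refine ⟨hΩne, ?_⟩
    intro h
    rw [h] at hb
    exact NormedSpace.unbounded_univ ℝ (Fin d → ℝ) hb
  have hΩB : Ω ⊆ Bᶜ := by
    intro v hv hvB
    rw [hB, frontier, hΩ.interior_eq] at hvB
    exact hvB.2 hv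
  have hC := abs_nonneg C
  have hextB : ∀ v ∈ B, ext κ B F v = g v := fun v hv => by
    rw [ext_eq_on hκ hα0 hC hF hv, hFg v hv]
  apply bad_le hΩ hb hΩne hΓ hne hconv (g := ext κ B F) (continuous_ext hκ hα0 hC hF B)
    ((contDiffOn_ext hκ hα0 hC hF hBc.isClosed hBne).mono hΩB)
  · intro v hv
    rw [hextB v hv]
    exact hgΓ v hv
  · intro t
    exact integrable_det hκ hα0 hC hF hd hBc hBne hβ hA hαβ hΩ hb hΩB t
  · intro t
    obtain ⟨D, hD⟩ := hBc.isBounded.exists_norm_le
    apply null_image (C := |C| + |t| * (2 * |D| + 1)) hα0 hA hαβ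
    intro v hv w hw
    have h1 : hm (ext κ B F) t v - hm (ext κ B F) t w = (g v - g w) + t • (v - w) := by
      unfold hm
      rw [hextB v hv, hextB w hw]; module
    rw [h1]
    have h2 : ‖v - w‖ ≤ (2 * |D| + 1) * ‖v - w‖ ^ α := by
      rcases eq_or_ne v w with h | h
      · subst h
        simp [Real.zero_rpow hα0.ne']
      · have h3 : 0 < ‖v - w‖ := norm_pos_iff.2 (sub_ne_zero.2 h)
        have h4 : ‖v - w‖ ≤ 2 * |D| + 1 := by
          have h5 := hD v hv
          have h6 := hD w hw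
          have h7 := le_abs_self D
          linarith [norm_sub_le v w]
        have h5 : ‖v - w‖ = ‖v - w‖ ^ (1 - α) * ‖v - w‖ ^ α := by
          rw [← Real.rpow_add h3]; simp
        have h6 : ‖v - w‖ ^ (1 - α) ≤ 2 * |D| + 1 := by
          calc ‖v - w‖ ^ (1 - α) ≤ (2 * |D| + 1) ^ (1 - α) := by
                gcongr
            _ ≤ (2 * |D| + 1) ^ (1 : ℝ) := by
                apply Real.rpow_le_rpow_of_exponent_le
                · have := abs_nonneg D; linarith
                · linarith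
            _ = _ := Real.rpow_one _
        calc ‖v - w‖ = ‖v - w‖ ^ (1 - α) * ‖v - w‖ ^ α := h5
          _ ≤ _ := by gcongr
    calc ‖(g v - g w) + t • (v - w)‖ ≤ ‖g v - g w‖ + ‖t • (v - w)‖ := norm_add_le _ _
      _ = ‖g v - g w‖ + |t| * ‖v - w‖ := by rw [norm_smul, Real.norm_eq_abs]
      _ ≤ |C| * ‖v - w‖ ^ α + |t| * ((2 * |D| + 1) * ‖v - w‖ ^ α) := by
          gcongr
          exact (hg v hv w hw).trans (by gcongr; exact le_abs_self C)
      _ = _ := by ring

/-! ### cubes -/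

theorem pow_sub_pow_le' {a b : ℝ} (hb : 0 ≤ b) (hab : b ≤ a) (k : ℕ) :
    a ^ k - b ^ k ≤ k * a ^ (k - 1) * (a - b) := by
  induction k with
  | zero => simp
  | succ k ih =>
    have ha : 0 ≤ a := hb.trans hab
    have h1 : a ^ (k + 1) - b ^ (k + 1) = a * (a ^ k - b ^ k) + (a - b) * b ^ k := by ring
    have h2 : b ^ k ≤ a ^ k := by gcongr
    rw [h1, Nat.add_sub_cancel]
    push_cast
    rcases Nat.eq_zero_or_pos k with hk | hk
    · subst hk; simp
    · have h4 : a ^ k = a * a ^ (k - 1) := by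
        conv_lhs => rw [show k = (k - 1) + 1 by omega]
        rw [pow_succ]; ring
      have h5 : 0 ≤ a - b := by linarith
      calc a * (a ^ k - b ^ k) + (a - b) * b ^ k
          ≤ a * (k * a ^ (k - 1) * (a - b)) + (a - b) * a ^ k := by gcongr
        _ = (k + 1) * a ^ k * (a - b) := by rw [h4]; ring

/-- The boundary of a cube (a ball of the sup norm) has Minkowski codimension one. -/
theorem cube_layer (v0 : Fin d → ℝ) {R : ℝ} (hR : 0 < R) :
    ∃ A : ℝ, ∀ r, 0 < r → r ≤ 1 →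
      volume (Metric.cthickening r (frontier (Metric.ball v0 R))) ≤ ENNReal.ofReal (A * r ^ (1 : ℝ)) := by
  refine ⟨d * (2 * (R + 1)) ^ (d - 1) * 4 + (2 * (R + 1)) ^ d / R, ?_⟩
  intro r hr hr1
  rw [Real.rpow_one, frontier_ball v0 hR.ne']
  have hsub : Metric.cthickening r (Metric.sphere v0 R) ⊆
      Metric.closedBall v0 (R + r) \ Metric.ball v0 (R - r) := by
    intro v hv
    rw [(isCompact_sphere v0 R).cthickening_eq_biUnion_closedBall hr.le, mem_iUnion₂] at hv
    obtain ⟨x, hx, hvx⟩ := hv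
    rw [Metric.mem_sphere] at hx
    rw [Metric.mem_closedBall] at hvx
    refine ⟨?_, ?_⟩
    · rw [Metric.mem_closedBall]
      linarith [dist_triangle v x v0]
    · rw [Metric.mem_ball, not_lt]
      have := dist_triangle x v v0
      rw [dist_comm x v] at this
      linarith
  have hvc : volume (Metric.closedBall v0 (R + r)) = ENNReal.ofReal ((2 * (R + r)) ^ d) := by
    rw [Real.volume_pi_closedBall _ (by linarith), Fintype.card_fin]
  have hq : 0 ≤ (2 * (R + 1)) ^ d / R * r := by positivity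
  have hp : 0 ≤ d * (2 * (R + 1)) ^ (d - 1) * 4 * r := by positivity
  rcases lt_or_ge r R with h | h
  · have hvb : volume (Metric.ball v0 (R - r)) = ENNReal.ofReal ((2 * (R - r)) ^ d) := by
      rw [Real.volume_pi_ball _ (by linarith), Fintype.card_fin]
    have hdiff : volume (Metric.closedBall v0 (R + r) \ Metric.ball v0 (R - r)) =
        ENNReal.ofReal ((2 * (R + r)) ^ d - (2 * (R - r)) ^ d) := by
      rw [measure_sdiff (Metric.ball_subset_closedBall.trans
        (Metric.closedBall_subset_closedBall (by linarith)))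
        Metric.isOpen_ball.measurableSet.nullMeasurableSet (by rw [hvb]; exact ENNReal.ofReal_ne_top),
        hvc, hvb, ENNReal.ofReal_sub]
      have : 0 ≤ R - r := by linarith
      positivity
    refine (measure_mono hsub).trans ?_
    rw [hdiff]
    apply ENNReal.ofReal_le_ofReal
    have h1 := pow_sub_pow_le' (a := 2 * (R + r)) (b := 2 * (R - r)) (by linarith) (by linarith) d
    have h2 : d * (2 * (R + r)) ^ (d - 1) * (2 * (R + r) - 2 * (R - r)) ≤
        d * (2 * (R + 1)) ^ (d - 1) * 4 * r := by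
      have h3 : 2 * (R + r) - 2 * (R - r) = 4 * r := by ring
      rw [h3]
      have h4 : (2 * (R + r)) ^ (d - 1) ≤ (2 * (R + 1)) ^ (d - 1) := by
        gcongr
      calc (d : ℝ) * (2 * (R + r)) ^ (d - 1) * (4 * r) ≤ d * (2 * (R + 1)) ^ (d - 1) * (4 * r) := by
            gcongr
        _ = _ := by ring
    calc _ ≤ _ := h1
      _ ≤ _ := h2
      _ ≤ _ := by rw [add_mul]; linarith
  · refine (measure_mono (hsub.trans sdiff_subset)).trans ?_
    rw [hvc]
    apply ENNReal.ofReal_le_ofReal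
    have h1 : (2 * (R + r)) ^ d ≤ (2 * (R + 1)) ^ d := by gcongr
    have h2 : (2 * (R + 1)) ^ d ≤ (2 * (R + 1)) ^ d / R * r := by
      rw [div_mul_eq_mul_div, le_div_iff₀ hR]
      gcongr
    calc _ ≤ _ := h1
      _ ≤ _ := h2
      _ ≤ _ := by rw [add_mul]; linarith

end Pool.Agent.TH290.Kak
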