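import Pool.Agent.W769.Kak.Core

set_option autoImplicit false

open MeasureTheory Set Finset Topology Filter

namespace Pool.Agent.TH290.Kak

open Pool.Agent.W769.Kak

variable {d : ℕ}

/-- **Homotopy invariance** of the weighted Jacobian functional, when the boundary density
vanishes. -/
theorem T_eq_of_hom {η g : (Fin d → ℝ) → ℝ} {f0 f1 : Fin d → (Fin d → ℝ) → ℝ}
    (hη : ContDiff ℝ 1 η) (hηc : HasCompactSupport η) (hg : ContDiff ℝ 1 g)
    (hf0 : ∀ i, ContDiff ℝ 2 (f0 i)) (hf1 : ∀ i, ContDiff ℝ 2 (f1 i))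
    (h : ∀ s ∈ Icc (0 : ℝ) 1, ∀ v, (∀ i, pd η i v = 0) ∨
      g (fun i => f0 i v + s * (f1 i v - f0 i v)) = 0) :
    T η g f1 = T η g f0 := by
  set φ : Fin d → (Fin d → ℝ) → ℝ := fun i v => f1 i v - f0 i v with hφdef
  have hφ : ∀ i, ContDiff ℝ 2 (φ i) := fun i => (hf1 i).sub (hf0 i)
  have hf01 : ∀ i, ContDiff ℝ 1 (f0 i) := fun i => (hf0 i).of_le (by norm_num)
  have hf11 : ∀ i, ContDiff ℝ 1 (f1 i) := fun i => (hf1 i).of_le (by norm_num)
  have hφ1 : ∀ i, ContDiff ℝ 1 (φ i) := fun i => (hφ i).of_le (by norm_num)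
  have hGM : ∀ v, GM f0 v + (1 : ℝ) • GM φ v = GM f1 v := by
    intro v
    rw [← GM_add_smul hf01 hφ1]
    congr 1
    funext i v
    simp [hφdef]
  have hT1 : T η g f1 = ∫ v, FI η g f0 φ 1 v := by
    unfold T FI
    congr 1
    funext v
    rw [hGM]
    simp [hφdef]
  have hT0 : T η g f0 = ∫ v, FI η g f0 φ 0 v := by
    unfold T FI
    congr 1
    funext v
    simp
  have hBI : ∀ s ∈ Icc (0 : ℝ) 1, ∀ j, ∀ v, BI η g f0 φ s j v = 0 := by
    intro s hs j v
    unfold BI
    rcases h s hs v with h1 | h1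
    · have : ((GM f0 v + s • GM φ v).updateCol j (fun i => pd η i v)).det = 0 := by
        apply Matrix.det_eq_zero_of_column_eq_zero j
        intro i
        rw [Matrix.updateCol_self]
        exact h1 i
      rw [this]; ring
    · have h2 : g (fun i => f0 i v + s * φ i v) = 0 := h1
      rw [h2]; ring
  have hmvt := norm_image_sub_le_of_norm_deriv_le_segment_01'
    (f := fun s => ∫ v, FI η g f0 φ s v) (f' := fun s => - ∑ j, ∫ v, BI η g f0 φ s j v)
    (C := 0)
    (fun s _ => (hasDerivAt_integral_FI hη hηc hg hf0 hφ s).hasDerivWithinAt) (by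
      intro s hs
      have : ∑ j, ∫ v, BI η g f0 φ s j v = 0 := by
        refine Finset.sum_eq_zero fun j _ => ?_
        simp_rw [hBI s ⟨hs.1, hs.2.le⟩ j]
        simp
      simp only [this, neg_zero, norm_zero, le_refl])
  rw [hT1, hT0]
  have h3 := norm_le_zero_iff.1 hmvt
  linarith [sub_eq_zero.1 h3]

theorem exists_cut (N : Set (Fin d → ℝ)) {δ1 δ2 : ℝ} (h12 : δ1 < δ2) (h2 : 0 < δ2) :
    ∃ g : (Fin d → ℝ) → ℝ, ContDiff ℝ 2 g ∧
      (∀ y ∈ Metric.cthickening δ1 N, g y = 1) ∧ (∀ y, y ∉ Metric.thickening δ2 N → g y = 0) := by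
  obtain ⟨g, h1, h2, h3⟩ := exists_contMDiffMap_zero_one_of_isClosed (n := (2 : ℕ∞))
    (modelWithCornersSelf ℝ (Fin d → ℝ))
    (s := (Metric.thickening δ2 N)ᶜ) (t := Metric.cthickening δ1 N)
    Metric.isOpen_thickening.isClosed_compl Metric.isClosed_cthickening (by
      rw [Set.disjoint_compl_left_iff_subset]
      exact Metric.cthickening_subset_thickening' h2 h12 N)
  refine ⟨g, ?_, ?_, ?_⟩
  · exact contMDiff_iff_contDiff.1 g.contMDiff
  · intro y hy; exact h2 hy
  · intro y hy; exact h1 hy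

/-- the Jacobian functional on an open set -/
noncomputable def J (Ω : Set (Fin d → ℝ)) (χ : (Fin d → ℝ) → ℝ) (F : (Fin d → ℝ) → Fin d → ℝ) :
    ℝ := ∫ v in Ω, χ (F v) * (fderiv ℝ F v).det

/-- Homotopy invariance of the Jacobian functional on a bounded open set. -/
theorem J_eq {Ω : Set (Fin d → ℝ)} (hΩ : IsOpen Ω) (hb : Bornology.IsBounded Ω)
    {χ : (Fin d → ℝ) → ℝ} (hχ : ContDiff ℝ 1 χ)
    {F0 F1 : (Fin d → ℝ) → Fin d → ℝ} (hc0 : Continuous F0) (hc1 : Continuous F1)
    (hF0 : ContDiffOn ℝ 2 F0 Ω) (hF1 : ContDiffOn ℝ 2 F1 Ω)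
    (h : ∀ v ∈ frontier Ω, ∀ s ∈ Icc (0 : ℝ) 1,
      (F0 v + s • (F1 v - F0 v)) ∉ tsupport χ) : J Ω χ F0 = J Ω χ F1 := by
  set H : ℝ × (Fin d → ℝ) → (Fin d → ℝ) := fun p => F0 p.2 + p.1 • (F1 p.2 - F0 p.2) with hH
  have hHc : Continuous H := by
    rw [hH]; fun_prop
  have hcl : IsCompact (closure Ω) := hb.isCompact_closure
  set S : Set (Fin d → ℝ) := Prod.snd '' ((Icc (0 : ℝ) 1 ×ˢ closure Ω) ∩ H ⁻¹' (tsupport χ)) with hS
  have hSc : IsCompact S := by
    apply IsCompact.image _ continuous_snd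
    exact (isCompact_Icc.prod hcl).inter_right ((isClosed_tsupport χ).preimage hHc)
  have hSmem : ∀ v ∈ closure Ω, ∀ s ∈ Icc (0 : ℝ) 1, H (s, v) ∈ tsupport χ → v ∈ S := by
    intro v hv s hs hm
    exact ⟨(s, v), ⟨⟨hs, hv⟩, hm⟩, rfl⟩
  have hSΩ : S ⊆ Ω := by
    rintro _ ⟨⟨s, v⟩, ⟨⟨hs, hv⟩, hm⟩, rfl⟩
    by_contra hvΩ
    have hf : v ∈ frontier Ω := by
      rw [frontier, hΩ.interior_eq]
      exact ⟨hv, hvΩ⟩
    exact h v hf s hs hm
  obtain ⟨δ, hδ, hδΩ⟩ := hSc.exists_cthickening_subset_open hΩ hSΩ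
  obtain ⟨η, hη, hη1, hη0⟩ := exists_cut S (δ1 := δ / 4) (δ2 := δ / 2) (by linarith) (by linarith)
  obtain ⟨ζ, hζ, hζ1, hζ0⟩ := exists_cut S (δ1 := 3 * δ / 4) (δ2 := δ) (by linarith) hδ
  have hSb : Bornology.IsBounded S := hSc.isBounded
  have hηts : tsupport η ⊆ Metric.cthickening (δ / 2) S := by
    apply closure_minimal _ Metric.isClosed_cthickening
    intro v hv
    by_contra h2
    exact hv (hη0 v (fun h3 => h2 (Metric.thickening_subset_cthickening _ _ h3)))
  have hηc : HasCompactSupport η := by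
    apply HasCompactSupport.of_support_subset_isCompact (K := Metric.cthickening (δ / 2) S)
    · exact Metric.isCompact_of_isClosed_isBounded Metric.isClosed_cthickening hSb.cthickening
    · exact (subset_tsupport η).trans hηts
  -- localised maps
  have hloc : ∀ F : (Fin d → ℝ) → Fin d → ℝ, Continuous F → ContDiffOn ℝ 2 F Ω →
      (∀ v ∈ closure Ω, F v ∈ tsupport χ → v ∈ S) →
      (∀ i, ContDiff ℝ 2 (fun v => ζ v * F v i)) ∧
      (∀ v ∈ Metric.cthickening (3 * δ / 4) S, (fun i => ζ v * F v i) = F v) ∧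
      T η χ (fun i v => ζ v * F v i) = J Ω χ F := by
    intro F hFc hF hFS
    have h1 : ∀ i, ContDiff ℝ 2 (fun v => ζ v * F v i) := by
      intro i
      rw [contDiff_iff_contDiffAt]
      intro v
      by_cases hv : v ∈ Metric.cthickening δ S
      · have hvΩ : v ∈ Ω := hδΩ hv
        have h2 : ContDiffAt ℝ 2 F v := hF.contDiffAt (hΩ.mem_nhds hvΩ)
        exact (hζ.contDiffAt).mul ((contDiffAt_pi.1 h2) i)
      · have h2 : (fun v => ζ v * F v i) =ᶠ[𝓝 v] fun _ => 0 := by
          filter_upwards [Metric.isClosed_cthickening.isOpen_compl.mem_nhds hv] with w hw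
          rw [hζ0 w (fun h3 => hw (Metric.thickening_subset_cthickening _ _ h3)), zero_mul]
        exact contDiffAt_const.congr_of_eventuallyEq h2
    have h2 : ∀ v ∈ Metric.cthickening (3 * δ / 4) S, (fun i => ζ v * F v i) = F v := by
      intro v hv
      funext i
      rw [hζ1 v hv, one_mul]
    refine ⟨h1, h2, ?_⟩
    have h3 : ∀ v ∈ Metric.thickening (3 * δ / 4) S,
        (GM (fun i v => ζ v * F v i) v).det = (fderiv ℝ F v).det := by
      intro v hv
      rw [← det_GM_eq (fun i => (h1 i).of_le (by norm_num))]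
      have h4 : (fun v i => ζ v * F v i) =ᶠ[𝓝 v] F := by
        filter_upwards [Metric.isOpen_thickening.mem_nhds hv] with w hw
        exact h2 w (Metric.thickening_subset_cthickening _ _ hw)
      rw [h4.fderiv_eq]
    unfold T J
    rw [← setIntegral_eq_integral_of_forall_compl_eq_zero (s := Ω)]
    · apply setIntegral_congr_fun hΩ.measurableSet
      intro v hv
      simp only
      by_cases hη' : η v = 0
      · rw [hη', zero_mul]
        by_cases hm : F v ∈ tsupport χ
        · have h5 := hη1 v (Metric.self_subset_cthickening S (hFS v (subset_closure hv) hm))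
          rw [h5] at hη'
          norm_num at hη'
        · rw [image_eq_zero_of_notMem_tsupport hm, zero_mul]
      · have h5 : v ∈ Metric.thickening (δ / 2) S := by
          by_contra h6
          exact hη' (hη0 v h6)
        have h6 : v ∈ Metric.thickening (3 * δ / 4) S :=
          Metric.thickening_mono (by linarith) S h5
        rw [h3 v h6, h2 v (Metric.thickening_subset_cthickening _ _ h6)]
        by_cases hm : F v ∈ tsupport χ
        · rw [hη1 v (Metric.self_subset_cthickening S (hFS v (subset_closure hv) hm)), one_mul]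
        · rw [image_eq_zero_of_notMem_tsupport hm]; ring
    · intro v hv
      have : η v = 0 := by
        apply hη0
        intro h5
        apply hv
        apply hδΩ
        exact Metric.cthickening_mono (by linarith) S (Metric.thickening_subset_cthickening _ _ h5)
      rw [this, zero_mul]
  obtain ⟨a1, a2, a3⟩ := hloc F0 hc0 hF0 (by
    intro v hv hm
    apply hSmem v hv 0 ⟨le_rfl, zero_le_one⟩
    simpa [hH] using hm)
  obtain ⟨b1, b2, b3⟩ := hloc F1 hc1 hF1 (by
    intro v hv hm
    apply hSmem v hv 1 ⟨zero_le_one, le_rfl⟩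
    simpa [hH] using hm)
  rw [← a3, ← b3]
  symm
  apply T_eq_of_hom (hη.of_le (by norm_num)) hηc hχ a1 b1
  intro s hs v
  by_cases hv : v ∈ tsupport η
  · by_cases hv2 : v ∈ Metric.thickening (δ / 4) S
    · left
      intro i
      have h4 : η =ᶠ[𝓝 v] fun _ => 1 := by
        filter_upwards [Metric.isOpen_thickening.mem_nhds hv2] with w hw
        exact hη1 w (Metric.thickening_subset_cthickening _ _ hw)
      rw [pd, h4.fderiv_eq]
      simp
    · right
      have h5 := hηts hv
      have h6 : v ∈ Metric.cthickening (3 * δ / 4) S := Metric.cthickening_mono (by linarith) S h5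
      have e0 := a2 v h6
      have e1 := b2 v h6
      have h8 : (fun i => ζ v * F0 v i + s * (ζ v * F1 v i - ζ v * F0 v i)) = H (s, v) := by
        funext i
        have e0i := congrFun e0 i
        have e1i := congrFun e1 i
        rw [e0i, e1i]
        simp [hH]
      rw [h8]
      apply image_eq_zero_of_notMem_tsupport
      intro h9
      apply hv2
      have h10 : v ∈ closure Ω := subset_closure (hδΩ (Metric.cthickening_mono (by linarith) S h5))
      exact Metric.self_subset_thickening (by linarith) S (hSmem v h10 s hs h9)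
  · left
    exact fun i => pd_eq_zero_of_notMem hv i

end Pool.Agent.TH290.Kak
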