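import Mathlib

set_option autoImplicit false

open Set

namespace Pool.Agent.TH290.Kak

variable {d : ℕ}

theorem rpow_add_le' {a b α : ℝ} (ha : 0 ≤ a) (hb : 0 ≤ b) (h0 : 0 ≤ α) (h1 : α ≤ 1) :
    (a + b) ^ α ≤ a ^ α + b ^ α := Real.rpow_add_le_add_rpow ha hb h0 h1

/-- McShane extension of a scalar Hölder function. -/
theorem mcshane_scalar {B : Set (Fin d → ℝ)} {α C : ℝ} (hα0 : 0 < α) (hα1 : α ≤ 1) (hC : 0 ≤ C)
    {f : (Fin d → ℝ) → ℝ} (hf : ∀ v ∈ B, ∀ w ∈ B, |f v - f w| ≤ C * ‖v - w‖ ^ α) :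
    ∃ F : (Fin d → ℝ) → ℝ, (∀ v ∈ B, F v = f v) ∧
      ∀ v w, |F v - F w| ≤ C * ‖v - w‖ ^ α := by
  rcases B.eq_empty_or_nonempty with hB | ⟨w0, hw0⟩
  · refine ⟨fun _ => 0, fun v hv => by rw [hB] at hv; exact absurd hv (notMem_empty v), ?_⟩
    intro v w
    simp only [sub_self, abs_zero]
    positivity
  have : Nonempty B := ⟨⟨w0, hw0⟩⟩
  have htri : ∀ u v w : Fin d → ℝ, ‖u - w‖ ^ α ≤ ‖u - v‖ ^ α + ‖v - w‖ ^ α := by
    intro u v w
    calc ‖u - w‖ ^ α ≤ (‖u - v‖ + ‖v - w‖) ^ α := by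
          gcongr
          exact norm_sub_le_norm_sub_add_norm_sub u v w
      _ ≤ ‖u - v‖ ^ α + ‖v - w‖ ^ α := rpow_add_le' (norm_nonneg _) (norm_nonneg _) hα0.le hα1
  have hbdd : ∀ v : Fin d → ℝ, BddBelow (range fun w : B => f w + C * ‖v - w‖ ^ α) := by
    intro v
    refine ⟨f w0 - C * ‖v - w0‖ ^ α, ?_⟩
    rintro _ ⟨w, rfl⟩
    have h1 := (abs_le.1 (hf w0 hw0 w w.2)).2
    have h2 := htri w0 v w
    rw [norm_sub_rev w0 v] at h2
    have h3 : C * ‖w0 - w‖ ^ α ≤ C * (‖v - w0‖ ^ α + ‖v - w‖ ^ α) := by gcongr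
    simp only
    linarith
  refine ⟨fun v => ⨅ w : B, (f w + C * ‖v - w‖ ^ α), ?_, ?_⟩
  · intro v hv
    apply le_antisymm
    · refine (ciInf_le (hbdd v) ⟨v, hv⟩).trans ?_
      simp [Real.zero_rpow hα0.ne']
    · apply le_ciInf
      intro w
      have h1 := (abs_le.1 (hf v hv w w.2)).2
      linarith
  · have hone : ∀ v w : Fin d → ℝ, (⨅ x : B, (f x + C * ‖v - x‖ ^ α)) -
        (⨅ x : B, (f x + C * ‖w - x‖ ^ α)) ≤ C * ‖v - w‖ ^ α := by
      intro v w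
      rw [sub_le_iff_le_add, add_comm, ← sub_le_iff_le_add]
      apply le_ciInf
      intro x
      have h1 := ciInf_le (hbdd v) x
      have h2 := htri v w x
      have h3 : C * ‖v - x‖ ^ α ≤ C * (‖v - w‖ ^ α + ‖w - x‖ ^ α) := by gcongr
      linarith
    intro v w
    rw [abs_le]
    constructor
    · have := hone w v
      rw [norm_sub_rev] at this
      linarith
    · exact hone v w

/-- McShane extension of a Hölder map. -/
theorem mcshane {B : Set (Fin d → ℝ)} {α C : ℝ} (hα0 : 0 < α) (hα1 : α ≤ 1)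
    {f : (Fin d → ℝ) → Fin d → ℝ} (hf : ∀ v ∈ B, ∀ w ∈ B, ‖f v - f w‖ ≤ C * ‖v - w‖ ^ α) :
    ∃ F : (Fin d → ℝ) → Fin d → ℝ, (∀ v ∈ B, F v = f v) ∧
      ∀ v w, ‖F v - F w‖ ≤ |C| * ‖v - w‖ ^ α := by
  have h : ∀ i, ∃ F : (Fin d → ℝ) → ℝ, (∀ v ∈ B, F v = f v i) ∧
      ∀ v w, |F v - F w| ≤ |C| * ‖v - w‖ ^ α := by
    intro i
    apply mcshane_scalar hα0 hα1 (abs_nonneg C)
    intro v hv w hw
    calc |f v i - f w i| ≤ ‖f v - f w‖ := norm_le_pi_norm (f v - f w) i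
      _ ≤ C * ‖v - w‖ ^ α := hf v hv w hw
      _ ≤ |C| * ‖v - w‖ ^ α := by gcongr; exact le_abs_self C
  choose F hF1 hF2 using h
  refine ⟨fun v i => F i v, fun v hv => funext fun i => hF1 i v hv, ?_⟩
  intro v w
  rw [pi_norm_le_iff_of_nonneg (by positivity)]
  intro i
  exact hF2 i v w

theorem continuous_of_hoelder {α C : ℝ} (hα0 : 0 < α)
    {F : (Fin d → ℝ) → Fin d → ℝ} (hF : ∀ v w, ‖F v - F w‖ ≤ C * ‖v - w‖ ^ α) :
    Continuous F := by
  rw [continuous_iff_continuousAt]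
  intro w
  rw [ContinuousAt, tendsto_iff_norm_sub_tendsto_zero]
  have h1 : Filter.Tendsto (fun v => C * ‖v - w‖ ^ α) (nhds w) (nhds (C * ‖w - w‖ ^ α)) := by
    apply Filter.Tendsto.const_mul
    apply Filter.Tendsto.rpow_const
    · exact (continuous_id.sub continuous_const).norm.tendsto w
    · right; exact hα0.le
  rw [sub_self, norm_zero, Real.zero_rpow hα0.ne', mul_zero] at h1
  exact squeeze_zero (fun _ => norm_nonneg _) (fun v => hF v w) h1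

end Pool.Agent.TH290.Kak
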