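import Pool.Agent.TH290.Kak.Cover

set_option autoImplicit false

open MeasureTheory Set Finset Topology Filter

namespace Pool.Agent.TH290.Kak

variable {d : ℕ}

/-- upper semicontinuity of the fibres of a compact set -/
theorem fibre_usc {Γ : Set ((Fin d → ℝ) × (Fin d → ℝ))} (hΓ : IsCompact Γ) (x : Fin d → ℝ)
    {ε : ℝ} (hε : 0 < ε) :
    ∃ δ > 0, δ ≤ ε ∧ ∀ w b, dist w x < δ → (w, b) ∈ Γ → ∃ b', (x, b') ∈ Γ ∧ dist b b' < ε := by
  set T : Set ((Fin d → ℝ) × (Fin d → ℝ)) :=
    Γ ∩ {p | p.2 ∉ Metric.thickening ε {b | (x, b) ∈ Γ}} with hT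
  have hTc : IsCompact T := by
    apply hΓ.inter_right
    exact (Metric.isOpen_thickening.preimage continuous_snd).isClosed_compl
  have hx : x ∉ Prod.fst '' T := by
    rintro ⟨⟨w, b⟩, ⟨h1, h2⟩, h3⟩
    simp only at h3
    subst h3
    apply h2
    exact Metric.self_subset_thickening hε _ h1
  have hcl : IsClosed (Prod.fst '' T) := (hTc.image continuous_fst).isClosed
  obtain ⟨δ, hδ, hδ2⟩ := Metric.isOpen_iff.1 hcl.isOpen_compl x hx
  refine ⟨min δ ε, by positivity, min_le_right _ _, ?_⟩
  intro w b hw hwb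
  have h4 : w ∉ Prod.fst '' T := hδ2 (by
    rw [Metric.mem_ball]; exact hw.trans_le (min_le_left _ _))
  by_contra h5
  apply h4
  refine ⟨(w, b), ⟨hwb, ?_⟩, rfl⟩
  intro h6
  rw [Metric.mem_thickening_iff] at h6
  obtain ⟨b', hb', h7⟩ := h6
  exact h5 ⟨b', hb', h7⟩

/-- **Relative approximate selections** (Cellina) of a compact graph with convex fibres. -/
theorem exists_approx_sel {Ω : Set (Fin d → ℝ)} (hΩ : IsOpen Ω) (hb : Bornology.IsBounded Ω)
    {Γ : Set ((Fin d → ℝ) × (Fin d → ℝ))} (hΓ : IsCompact Γ)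
    (hne : ∀ v ∈ closure Ω, ∃ b, (v, b) ∈ Γ)
    (hconv : ∀ v ∈ closure Ω, Convex ℝ {b | (v, b) ∈ Γ})
    {g : (Fin d → ℝ) → Fin d → ℝ} (hg : Continuous g) (hgΓ : ∀ v ∈ frontier Ω, (v, g v) ∈ Γ)
    {ε : ℝ} (hε : 0 < ε) :
    ∃ a : (Fin d → ℝ) → Fin d → ℝ, Continuous a ∧ (∀ v ∈ frontier Ω, a v = g v) ∧
      ∀ v ∈ closure Ω, ∃ w b, (w, b) ∈ Γ ∧ dist w v ≤ ε ∧ dist b (a v) ≤ ε := by
  classical
  choose δ hδ hδε hδΓ using fun x => fibre_usc hΓ x (ε := ε / 2) (by positivity)
  have hcl : IsCompact (closure Ω) := hb.isCompact_closure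
  obtain ⟨s, hs, hcov⟩ := hcl.elim_nhds_subcover (fun x => Metric.ball x (δ x / 2))
    (fun x _ => Metric.ball_mem_nhds x (by have := hδ x; positivity))
  -- the index
  have hJ : ∀ v, ∃ j, v ∈ closure Ω → j ∈ s ∧ v ∈ Metric.closedBall j (δ j / 2) ∧
      ∀ x ∈ s, v ∈ Metric.closedBall x (δ x / 2) → δ x ≤ δ j := by
    intro v
    by_cases hv : v ∈ closure Ω
    · have hv2 := hcov hv
      rw [mem_iUnion₂] at hv2
      obtain ⟨x, hx, hvx⟩ := hv2
      obtain ⟨j, hj, hjm⟩ := Finset.exists_max_image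
        (s.filter fun x => v ∈ Metric.closedBall x (δ x / 2)) δ
        ⟨x, Finset.mem_filter.2 ⟨hx, Metric.ball_subset_closedBall hvx⟩⟩
      rw [Finset.mem_filter] at hj
      exact ⟨j, fun _ => ⟨hj.1, hj.2, fun x hx hvx => hjm x (Finset.mem_filter.2 ⟨hx, hvx⟩)⟩⟩
    · exact ⟨v, fun h => absurd h hv⟩
  choose j hj using hJ
  set t : (Fin d → ℝ) → Set (Fin d → ℝ) := fun v =>
    if v ∈ Ω then Metric.thickening ε {b | (j v, b) ∈ Γ}
    else if v ∈ frontier Ω then {g v} else univ with ht
  have htΩ : ∀ v ∈ Ω, t v = Metric.thickening ε {b | (j v, b) ∈ Γ} := fun v hv => by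
    simp only [ht, hv, if_true]
  have hfr : ∀ v ∈ frontier Ω, v ∉ Ω := by
    intro v hv hv2
    rw [frontier, hΩ.interior_eq] at hv
    exact hv.2 hv2
  have htf : ∀ v ∈ frontier Ω, t v = {g v} := fun v hv => by
    simp only [ht, hfr v hv, if_false, hv, if_true]
  have hto : ∀ v, v ∉ Ω → v ∉ frontier Ω → t v = univ := fun v hv hv2 => by
    simp only [ht, hv, if_false, hv2]
  have htconv : ∀ v, Convex ℝ (t v) := by
    intro v
    by_cases hv : v ∈ Ω
    · rw [htΩ v hv]
      apply Convex.thickening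
      apply hconv
      exact hs _ (hj v (subset_closure hv)).1
    · by_cases hv2 : v ∈ frontier Ω
      · rw [htf v hv2]; exact convex_singleton _
      · rw [hto v hv hv2]; exact convex_univ
  obtain ⟨a, ha⟩ := exists_continuous_forall_mem_convex_of_local htconv (by
    intro v0
    by_cases hv : v0 ∈ Ω
    · have hv2 := hcov (subset_closure hv)
      rw [mem_iUnion₂] at hv2
      obtain ⟨x, hx, hvx⟩ := hv2
      obtain ⟨b0, hb0⟩ := hne x (hs x hx)
      refine ⟨Ω ∩ Metric.ball x (δ x / 2), Filter.inter_mem (hΩ.mem_nhds hv)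
        (Metric.isOpen_ball.mem_nhds hvx), fun _ => b0, continuousOn_const, ?_⟩
      rintro y ⟨hy, hyx⟩
      rw [htΩ y hy, Metric.mem_thickening_iff]
      obtain ⟨h1, h2, h3⟩ := hj y (subset_closure hy)
      have h4 := h3 x hx (Metric.ball_subset_closedBall hyx)
      rw [Metric.mem_closedBall] at h2
      rw [Metric.mem_ball] at hyx
      have h5 : dist x (j y) < δ (j y) := by
        calc dist x (j y) ≤ dist x y + dist y (j y) := dist_triangle _ _ _
          _ < δ (j y) := by rw [dist_comm x y]; linarith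
      obtain ⟨b', hb', h6⟩ := hδΓ (j y) x b0 h5 hb0
      exact ⟨b', hb', by linarith⟩
    · by_cases hv2 : v0 ∈ frontier Ω
      · have hU : ∀ᶠ y in 𝓝 v0, (∀ x ∈ s, y ∈ Metric.closedBall x (δ x / 2) →
            v0 ∈ Metric.closedBall x (δ x / 2)) ∧ dist (g y) (g v0) < ε / 2 := by
          apply Filter.Eventually.and
          · rw [Filter.eventually_all_finset]
            intro x _
            by_cases hx : v0 ∈ Metric.closedBall x (δ x / 2)
            · exact Eventually.of_forall fun _ _ => hx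
            · filter_upwards [Metric.isClosed_closedBall.isOpen_compl.mem_nhds hx] with y hy hy2
              exact absurd hy2 hy
          · exact hg.continuousAt.eventually (Metric.ball_mem_nhds _ (by positivity))
        refine ⟨_, hU, g, hg.continuousOn, ?_⟩
        rintro y ⟨hy1, hy2⟩
        by_cases hyΩ : y ∈ Ω
        · rw [htΩ y hyΩ, Metric.mem_thickening_iff]
          obtain ⟨h1, h2, h3⟩ := hj y (subset_closure hyΩ)
          have h4 := hy1 (j y) h1 h2
          rw [Metric.mem_closedBall] at h4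
          have h5 : dist v0 (j y) < δ (j y) := by
            have := hδ (j y)
            linarith
          obtain ⟨b', hb', h6⟩ := hδΓ (j y) v0 (g v0) h5 (hgΓ v0 hv2)
          refine ⟨b', hb', ?_⟩
          calc dist (g y) b' ≤ dist (g y) (g v0) + dist (g v0) b' := dist_triangle _ _ _
            _ < ε := by linarith
        · by_cases hyf : y ∈ frontier Ω
          · rw [htf y hyf]; exact mem_singleton _
          · rw [hto y hyΩ hyf]; exact mem_univ _
      · refine ⟨(closure Ω)ᶜ, ?_, fun _ => 0, continuousOn_const, ?_⟩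
        · apply isClosed_closure.isOpen_compl.mem_nhds
          intro h
          apply hv2
          rw [frontier, hΩ.interior_eq]
          exact ⟨h, hv⟩
        · intro y hy
          rw [hto y (fun h => hy (subset_closure h)) (fun h => hy (frontier_subset_closure h))]
          exact mem_univ _)
  refine ⟨a, a.continuous, ?_, ?_⟩
  · intro v hv
    have := ha v
    rw [htf v hv] at this
    exact this
  · intro v hv
    by_cases hvΩ : v ∈ Ω
    · have h1 := ha v
      rw [htΩ v hvΩ, Metric.mem_thickening_iff] at h1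
      obtain ⟨b, hb1, hb2⟩ := h1
      obtain ⟨h1, h2, h3⟩ := hj v hv
      refine ⟨j v, b, hb1, ?_, ?_⟩
      · rw [Metric.mem_closedBall] at h2
        rw [dist_comm]
        have := hδε (j v)
        have := hδ (j v)
        linarith
      · rw [dist_comm]; exact hb2.le
    · have hvf : v ∈ frontier Ω := by
        rw [frontier, hΩ.interior_eq]
        exact ⟨hv, hvΩ⟩
      refine ⟨v, g v, hgΓ v hvf, by rw [dist_self]; exact hε.le, ?_⟩
      have := ha v
      rw [htf v hvf] at this
      rw [show a v = g v from this, dist_self]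
      exact hε.le

end Pool.Agent.TH290.Kak
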