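import Pool.Agent.TH290.Kak.Final

set_option autoImplicit false

open MeasureTheory Set Topology Filter
open scoped ENNReal

namespace Pool.Agent.TH290.Kak

open Pool.Agent.W769.Kak

/-- From the bad-height bound to interiors of slices and of the set. -/
theorem wrap {n k : ℕ} (ι : Fin (k + 1) → Fin n) (hι : Function.Injective ι)
    {Γ : Set ((Fin k → ℝ) × (Fin k → ℝ))} (hbad : {t : ℝ | ¬ Good Γ t}.encard ≤ k)
    {t1 t2 : ℝ} (h12 : t1 < t2) {K : Set (EuclideanSpace ℝ (Fin n))}
    (hK : ∀ v b, (v, b) ∈ Γ → ∀ t ∈ Icc t1 t2,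
      ∃ x ∈ K, x (ι 0) = t ∧ ∀ j : Fin k, x (ι j.succ) = b j + t * v j) :
    {t ∈ Icc t1 t2 | interior {y : Fin k → ℝ | ∃ x ∈ K, x (ι 0) = t ∧
      ∀ j : Fin k, x (ι j.succ) = y j} = ∅}.encard ≤ k ∧
    (interior (proj ι '' K)).Nonempty ∧
    Measure.hausdorffMeasure ((k : ℝ) + 1) K ≠ 0 ∧ ((k + 1 : ℕ) : ℝ≥0∞) ≤ dimH K ∧
    (n = k + 1 → (interior K).Nonempty) := by
  have hslice : ∀ t ∈ Icc t1 t2, Good Γ t → (interior {y : Fin k → ℝ | ∃ x ∈ K, x (ι 0) = t ∧
      ∀ j : Fin k, x (ι j.succ) = y j}).Nonempty := by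
    intro t ht hG
    obtain ⟨y0, r, hr, hG⟩ := hG
    refine ⟨y0, ?_⟩
    rw [mem_interior]
    refine ⟨Metric.ball y0 r, ?_, Metric.isOpen_ball, Metric.mem_ball_self hr⟩
    intro y hy
    obtain ⟨v, b, hvb, hy2⟩ := hG t (by simpa using hr) y hy
    obtain ⟨x, hx, hx0, hxj⟩ := hK v b hvb t ht
    refine ⟨x, hx, hx0, fun j => ?_⟩
    rw [hxj j, ← hy2]; simp
  have h1 : {t ∈ Icc t1 t2 | interior {y : Fin k → ℝ | ∃ x ∈ K, x (ι 0) = t ∧
      ∀ j : Fin k, x (ι j.succ) = y j} = ∅}.encard ≤ k := by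
    refine (Set.encard_le_encard ?_).trans hbad
    rintro t ⟨ht, he⟩ hG
    exact (hslice t ht hG).ne_empty he
  have hfin : {t : ℝ | ¬ Good Γ t}.Finite := by
    apply Set.finite_of_encard_le_coe hbad
  obtain ⟨t, ht, hG⟩ : ∃ t ∈ Ioo t1 t2, Good Γ t := by
    obtain ⟨t, ht, ht2⟩ := ((Ioo_infinite h12).sdiff hfin).nonempty
    exact ⟨t, ht, by by_contra h; exact ht2 h⟩
  have h2 : (interior (proj ι '' K)).Nonempty := by
    obtain ⟨y0, r, hr, hG⟩ := hG
    set r' := min r (min (t - t1) (t2 - t)) with hr'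
    have hr'0 : 0 < r' := by
      have := ht.1
      have := ht.2
      simp only [hr', lt_min_iff]
      refine ⟨hr, by linarith, by linarith⟩
    set z0 : Fin (k + 1) → ℝ := Fin.cons t y0 with hz0
    refine ⟨z0, ?_⟩
    rw [mem_interior]
    refine ⟨Metric.ball z0 r', ?_, Metric.isOpen_ball, Metric.mem_ball_self hr'0⟩
    intro z hz
    rw [Metric.mem_ball, dist_pi_lt_iff hr'0] at hz
    have hz00 := hz 0
    rw [hz0, Fin.cons_zero, Real.dist_eq] at hz00
    have hzt : z 0 ∈ Icc t1 t2 := by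
      have h3 := abs_lt.1 hz00
      have h4 : r' ≤ t - t1 := (min_le_right _ _).trans (min_le_left _ _)
      have h5 : r' ≤ t2 - t := (min_le_right _ _).trans (min_le_right _ _)
      constructor <;> linarith [h3.1, h3.2]
    have hzy : dist (fun j : Fin k => z j.succ) y0 < r := by
      rw [dist_pi_lt_iff hr]
      intro j
      have h3 := hz j.succ
      rw [hz0, Fin.cons_succ] at h3
      exact h3.trans_le (min_le_left _ _)
    obtain ⟨v, b, hvb, hy2⟩ := hG (z 0) (hz00.trans_le (min_le_left _ _)) _ hzy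
    obtain ⟨x, hx, hx0, hxj⟩ := hK v b hvb (z 0) hzt
    refine ⟨x, hx, ?_⟩
    funext i
    refine Fin.cases ?_ (fun j => ?_) i
    · exact hx0
    · have h3 := congrFun hy2 j
      simp only [Pi.add_apply, Pi.smul_apply, smul_eq_mul] at h3
      simp only [proj]
      rw [hxj j, h3]
  have hvol : volume (proj ι '' K) ≠ 0 := by
    intro h0
    have h3 := (isOpen_interior.measure_pos volume h2).ne'
    exact h3 (measure_mono_null interior_subset h0)
  refine ⟨h1, h2, ?_, ?_, ?_⟩
  · have := hausdorff_ne_zero_of_proj ι hvol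
    push_cast at this
    exact this
  · exact dimH_ge_of_proj ι hvol
  · intro hn
    subst hn
    have hbij : Function.Bijective ι := ⟨hι, Finite.injective_iff_surjective.1 hι⟩
    obtain ⟨z, hz⟩ := h2
    set e := Equiv.ofBijective ι hbij with he
    set x : EuclideanSpace ℝ (Fin (k + 1)) := WithLp.toLp 2 (fun i => z (e.symm i)) with hx
    have hxz : proj ι x = z := by
      funext j
      simp only [proj, hx]
      have : e.symm (ι j) = j := e.symm_apply_apply j
      rw [this]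
    have hinj : Function.Injective (proj (n := k + 1) ι) := by
      intro a b hab
      ext i
      obtain ⟨j, rfl⟩ := hbij.2 i
      exact congrFun hab j
    refine ⟨x, ?_⟩
    rw [mem_interior]
    refine ⟨proj ι ⁻¹' interior (proj ι '' K), ?_,
      isOpen_interior.preimage (lipschitz_proj ι).continuous, ?_⟩
    · intro a ha
      have h3 : proj ι a ∈ proj ι '' K := interior_subset ha
      obtain ⟨b, hb, hab⟩ := h3
      rwa [← hinj hab]
    · rw [mem_preimage, hxz]; exact hz

end Pool.Agent.TH290.Kak
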